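import Pool.Agent.Helper64.FL.StC

/-! Full list for MP_866009_co: no further vertex of the clique is attached to the last component of
a violating walk. -/

set_option autoImplicit false

namespace Pool.Agent.Helper64.FL

open Pool.Agent.Helper64.CT Pool.Agent.Helper64.DT

variable {V : Type}

/-- a component outside the neighbourhood of `w` connects an attachment to all its vertices -/
theorem lw2_att (G : SimpleGraph V) {y e p w : V} (hp : p ∈ Att G y e) (hw : p ∈ Far G w)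
    (hK : ∀ v, Comp G y e v → v ∈ Far G w) : ∀ v, Comp G y e v → Comp G w p v := by
  obtain ⟨_, u, hu, ha⟩ := hp
  intro v hv
  have h1 : Comp G w p u := Comp.adj hw (hK u hu) ha
  have h2 : Comp G y u v := hu.symm.trans hv
  exact Comp.ind h2 (fun v => Comp G w p v) h1
    (fun z w' hz hP hw' ha' => hP.step (hK w' ((hu.trans hz).step hw' ha')) ha')

/-- a component is outside the neighbourhood of a neighbour of `y` that is not an attachment -/
theorem lw2_far (G : SimpleGraph V) {y e w : V} (hyw : G.Adj y w) (hw : w ∉ Att G y e) :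
    ∀ v, Comp G y e v → v ∈ Far G w := by
  intro v hv
  refine ⟨fun h => hv.2.1.2 (h ▸ hyw), fun h => hw ⟨hyw, v, hv, h⟩⟩

/-- two attachments of a component are connected outside the neighbourhood of `w` -/
theorem lw2_con (G : SimpleGraph V) {y e p p' w : V} (hyw : G.Adj y w) (hw : w ∉ Att G y e)
    (hp : p ∈ Att G y e) (hp' : p' ∈ Att G y e) (h : p ∈ Far G w) (h' : p' ∈ Far G w) :
    Comp G w p p' := by
  have hK := lw2_far G hyw hw
  obtain ⟨_, u, hu, ha⟩ := id hp'
  exact (lw2_att G hp h hK u hu).step h' ha.symm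

theorem st_LW2 (h1 : ST_RAY) (h3 : ST_STB) : ST_LW2 := by
  intro V G Q hDF hCI hMx x y r E hL q hq hqa
  obtain ⟨r1, _, _, _, _, r6⟩ := h1 V G Q hDF hMx
  have hr := hL.r3
  by_cases hqx : q = x
  · exact hL.xat (r - 1) (by omega) (by omega) (hqx ▸ hqa)
  by_cases hqy : q = y
  · exact G.loopless.irrefl y (hqy ▸ hqa.1)
  -- common attachments
  have hm : ∀ i, i < r → ∃ n, n ∈ Att G y (E i) ∧ n ∈ Att G y (E (i + 1)) := by
    intro i hi
    obtain ⟨_, ⟨u, hu, ⟨n, hn, hun⟩, _⟩, _⟩ := hL.cf i hi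
    exact ⟨n, ⟨hn.1, u, hu, hun.symm⟩, hn⟩
  have : Nonempty V := ⟨x⟩
  choose! m hma hmb using hm
  have hyx : G.Adj y x := hMx.1 y hL.yQ x hL.xQ hL.xy.symm
  have hxa : x ∈ Att G y (E 0) := (r1 x (E 0) y hL.ray0 hL.yQ hL.xy.symm).2
  have hmy : ∀ i, i < r → G.Adj y (m i) := fun i hi => (hma i hi).1
  have hmx : ∀ i, i + 2 ≤ r → m i ≠ x := fun i hi h =>
    hL.xat (i + 1) (by omega) (by omega) (h ▸ hmb i (by omega))
  have hmQ : ∀ i, i + 2 ≤ r → m i ∉ Q := fun i hi h =>
    hL.qat i hi (m i) h (hmx i hi) (hma i (by omega))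
  have hmF : ∀ i, i + 2 ≤ r → ∀ q' ∈ Q, q' ≠ y → m i ∈ Far G q' := fun i hi q' hq' hne =>
    r6 y hL.yQ (m i) (hmy i (by omega)) (hmQ i hi) q' hq' hne
  have hEr : ∀ i, i + 2 ≤ r → ∀ n ∈ Att G y (E i), G.Adj (E r) n := by
    have hfr : E r ∈ Far G y := (r1 x (E r) y hL.rayr hL.yQ hL.xy.symm).1
    rcases hL.cpl (E r) (Comp.refl hfr) with h | h
    · exact h
    · exact absurd hL.rayr.2.1.symm (h 0 (by omega) x hxa)
  have hmm : ∀ i j, i < j → j + 2 ≤ r → m i ≠ m j := fun i j hij hj h =>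
    hL.dsj i (j + 1) (by omega) (by omega) (m i) (hma i (by omega)) (h ▸ hmb j (by omega))
  have hfr : E r ∈ Far G y := (r1 x (E r) y hL.rayr hL.yQ hL.xy.symm).1
  have hnn : ∀ i j, i < j → j + 2 ≤ r → ¬ G.Adj (m i) (m j) := fun i j hij hj =>
    (h3 V G hDF y (E r) (m i) (m j) hfr.1 (hmm i j hij hj) (hmy i (by omega)) (hmy j (by omega))
      (hEr i (by omega) _ (hma i (by omega))) (hEr j (by omega) _ (hma j (by omega)))).1 hfr.2
  have hF : ∀ i j, i < j → j + 2 ≤ r → m i ∈ Far G (m j) ∧ m j ∈ Far G (m i) := fun i j hij hj =>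
    ⟨⟨hmm i j hij hj, fun h => hnn i j hij hj h.symm⟩, ⟨(hmm i j hij hj).symm, hnn i j hij hj⟩⟩
  have hxF : ∀ i, i + 2 ≤ r → m i ∈ Far G x := fun i hi => hmF i hi x hL.xQ hL.xy
  have hqF : ∀ i, i + 2 ≤ r → m i ∈ Far G q := fun i hi => hmF i hi q hq hqy
  have hxy := hL.xy
  -- the first pair
  have c1 : Comp G (m 1) x (m 0) :=
    lw2_con G (hmy 1 (by omega)) (fun h => hL.dsj 0 2 (by omega) (by omega) (m 1) h
      (hmb 1 (by omega))) hxa (hma 0 (by omega)) (Far.symm (hxF 1 (by omega)))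
      (hF 0 1 (by omega) (by omega)).1
  have c2 : Comp G x (m 0) (m 1) :=
    lw2_con G hyx (hL.xat 1 (by omega) (by omega)) (hmb 0 (by omega)) (hma 1 (by omega))
      (hxF 0 (by omega)) (hxF 1 (by omega))
  have hm0 : ∀ j, 2 ≤ j → j < r → m 0 ∉ Att G y (E j) := fun j h2 hj =>
    hL.dsj 0 j (by omega) hj (m 0) (hma 0 (by omega))
  have c3 : ∀ j, 1 ≤ j → j + 2 ≤ r → Comp G (m 0) (m 1) (m j) := by
    intro j
    induction j with
    | zero => omega
    | succ j ih =>
      intro _ hj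
      rcases Nat.eq_zero_or_pos j with h0 | h0
      · subst h0
        exact Comp.refl (hF 0 1 (by omega) (by omega)).2
      · refine (ih h0 (by omega)).trans ?_
        exact lw2_con G (hmy 0 (by omega)) (hm0 (j + 1) (by omega) (by omega)) (hmb j (by omega))
          (hma (j + 1) (by omega)) (hF 0 j h0 (by omega)).2 (hF 0 (j + 1) (by omega) hj).2
  have c4 : Comp G (m 0) (m (r - 2)) q := by
    have e : r - 2 + 1 = r - 1 := by omega
    have h4 := hmb (r - 2) (by omega)
    rw [e] at h4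
    exact lw2_con G (hmy 0 (by omega)) (hm0 (r - 1) (by omega) (by omega)) h4 hqa
      (hF 0 (r - 2) (by omega) (by omega)).2 (Far.symm (hqF 0 (by omega)))
  have c5 : Comp G (m 0) q x :=
    Comp.adj (Far.symm (hqF 0 (by omega))) (Far.symm (hxF 0 (by omega)))
      (hMx.1 q hq x hL.xQ hqx)
  have c6 : Comp G (m 0) x (m 1) :=
    (((c3 (r - 2) (by omega) (by omega)).trans c4).trans c5).symm
  exact hCI ⟨y, x, m 0, m 1, hyx, hmy 0 (by omega), hmy 1 (by omega), c1, c2, c6⟩

end Pool.Agent.Helper64.FL
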