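import Pool.Agent.Helper64.FL.StC
import Pool.Agent.Helper47.FL.JIN

/-! Full list for MP_866009_co: a violating walk of conflicts with a vertex complete to the first
attachments and not complete to the last ones. -/

set_option autoImplicit false

namespace Pool.Agent.Helper64.FL

open Pool.Agent.Helper64.CT Pool.Agent.Helper64.DT

variable {V : Type}

/-- the arc of the walk with the hub `w` and the further vertex `z` of the clique -/
structure LwaC (G : SimpleGraph V) (y w z : V) (n : ℕ → V) (P : ℕ → List V) (r : ℕ) : Prop where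
  arc : Arc G y n P 0 r
  nn : ∀ i j, i < j → j < r → ¬ G.Adj (n i) (n j)
  wy : w ∈ Far G y
  wn : ∀ i, i < r → G.Adj w (n i)
  wP : ∀ i, i < r → ∀ u ∈ P i, u ≠ w ∧ ¬ G.Adj w u
  wq : ¬ G.Adj w (n r)
  yz : G.Adj y z
  wz : ¬ G.Adj w z
  z0 : G.Adj z (n 0)
  zn : ∀ i, 0 < i → i ≤ r → z ≠ n i ∧ ¬ G.Adj z (n i)
  zP : ∀ i, i < r → ∀ u ∈ P i, z ≠ u ∧ ¬ G.Adj z u

theorem lwa_Py {G : SimpleGraph V} {y w z : V} {n : ℕ → V} {P : ℕ → List V} {r : ℕ}
    (h : LwaC G y w z n P r) {i : ℕ} (hi : i < r) {u : V} (hu : u ∈ P i) :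
    u ≠ y ∧ ¬ G.Adj y u := h.arc.far i (Nat.zero_le _) hi u hu

theorem lwa_b (G : SimpleGraph V) (y w z : V) (n : ℕ → V) (P : ℕ → List V) (r t : ℕ)
    (h : LwaC G y w z n P r) (hA : Arc G y n P 0 (0 + t)) (ht : t < r) (hqt : G.Adj (n r) (n t))
    (hqi : ∀ i, i < t → ¬ G.Adj (n r) (n i)) :
    LPc G y y w [z] n P 0 t [n r] true true := by
  have hyq : G.Adj y (n r) := h.arc.xn r (Nat.zero_le _) le_rfl
  refine ⟨hA, fun i j _ hij hj => h.nn i j hij (by omega), h.wy.1.symm, h.wy.2,
    fun i _ hi => ⟨h.arc.xn i (Nat.zero_le _) (by omega), h.wn i (by omega)⟩, ?_, by simp,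
    by simp, ?_, ?_, ?_, by simp, ?_, by simp, ?_, ?_, ?_, ?_, ?_⟩
  · intro i _ hi u hu
    have h1 := lwa_Py h (show i < r by omega) hu
    have h2 := h.wP i (by omega) u hu
    exact ⟨h1.1, h2.1, h1.2, h2.2⟩
  · exact ⟨by simp, by simp, by simp, trivial⟩
  · exact ⟨by simp, by simp, by simp, trivial⟩
  · intro u hu
    have hu' : z = u := by simpa using hu
    subst hu'
    simp [h.yz, h.wz]
  · intro u hu
    have hu' : n r = u := by simpa using hu
    subst hu'
    simp [hyq, h.wq]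
  · intro u hu
    have hu' : u = z := by simpa using hu
    subst hu'
    refine ⟨h.yz.ne.symm, ?_, ?_⟩
    · intro he
      subst he
      exact h.wy.2 h.yz
    · simp [h.z0]
  · intro u hu
    have hu' : u = n r := by simpa using hu
    subst hu'
    refine ⟨hyq.ne.symm, ?_, ?_⟩
    · intro he
      exact h.wy.2 (he ▸ hyq)
    · simp [hqt]
  · intro u hu
    have hu' : u = z := by simpa using hu
    subst hu'
    refine ⟨fun i _ hi => ⟨?_, fun h0 => (h.zn i (by omega) (by omega)).2⟩,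
      fun i _ hi v hv => h.zP i (by omega) v hv⟩
    rcases Nat.eq_zero_or_pos i with h0 | h0
    · subst h0; exact h.z0.ne
    · exact (h.zn i h0 (by omega)).1
  · intro u hu
    have hu' : u = n r := by simpa using hu
    subst hu'
    refine ⟨fun i _ hi => ⟨(h.arc.inj i r (Nat.zero_le _) (by omega) le_rfl).symm, fun h0 =>
      hqi i (by omega)⟩, fun i _ hi v hv => ⟨?_, h.arc.cln i r (Nat.zero_le _) (by omega)
        (Nat.zero_le _) le_rfl (by omega) (by omega) v hv⟩⟩
    intro he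
    exact (lwa_Py h (show i < r by omega) hv).2 (he ▸ hyq)
  · intro u hu v hv
    have hu' : u = z := by simpa using hu
    have hv' : v = n r := by simpa using hv
    subst hu' hv'
    exact h.zn r (by omega) le_rfl

theorem lwa_a (G : SimpleGraph V) (y w z : V) (n : ℕ → V) (P : ℕ → List V) (s : ℕ)
    (h : LwaC G y w z n P (s + 1)) (hA : Arc G y n P 0 (0 + s))
    (hqi : ∀ i, i < s + 1 → ¬ G.Adj (n (s + 1)) (n i)) :
    LPc G y y w [z] n P 0 s (P s ++ [n (s + 1)]) true true := by
  have hyq : G.Adj y (n (s + 1)) := h.arc.xn (s + 1) (Nat.zero_le _) le_rfl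
  have hne := h.arc.ne s (Nat.zero_le _) (by omega)
  have hsep : ∀ i, i < s → ∀ u ∈ P i, ∀ v ∈ P s, u ≠ v ∧ ¬ G.Adj u v := fun i hi u hu v hv =>
    h.arc.sep i s (Nat.zero_le _) hi (by omega) u hu v hv
  refine ⟨hA, fun i j _ hij hj => h.nn i j hij (by omega), h.wy.1.symm, h.wy.2,
    fun i _ hi => ⟨h.arc.xn i (Nat.zero_le _) (by omega), h.wn i (by omega)⟩, ?_, by simp,
    by simp, ?_, ?_, ?_, by simp, ?_, ?_, ?_, ?_, ?_, ?_, ?_⟩
  · intro i _ hi u hu
    have h1 := lwa_Py h (show i < s + 1 by omega) hu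
    have h2 := h.wP i (by omega) u hu
    exact ⟨h1.1, h2.1, h1.2, h2.2⟩
  · exact ⟨by simp, by simp, by simp, trivial⟩
  · refine Pool.Agent.Helper64.FL.st_JIN V G (P s) [n (s + 1)] (h.arc.ip s (Nat.zero_le _) (by omega))
      ⟨by simp, by simp, by simp, trivial⟩ ?_
    intro u hu v hv
    have hv' : v = n (s + 1) := by simpa using hv
    subst hv'
    refine ⟨fun he => (lwa_Py h (show s < s + 1 by omega) hu).2 (he ▸ hyq), ?_⟩
    rw [G.adj_comm, h.arc.lst s (Nat.zero_le _) (by omega) u hu]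
    simp
  · intro u hu
    have hu' : z = u := by simpa using hu
    subst hu'
    simp [h.yz, h.wz]
  · intro u hu
    have hu' : n (s + 1) = u := by simpa using hu
    subst hu'
    simp [hyq, h.wq]
  · intro u hu
    rw [List.dropLast_concat] at hu
    exact ⟨(lwa_Py h (show s < s + 1 by omega) hu).2, (h.wP s (by omega) u hu).2⟩
  · intro u hu
    have hu' : u = z := by simpa using hu
    subst hu'
    refine ⟨h.yz.ne.symm, ?_, ?_⟩
    · intro he
      subst he
      exact h.wy.2 h.yz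
    · simp [h.z0]
  · intro u hu
    rw [zero_add, List.head?_append_of_ne_nil _ hne]
    rcases List.mem_append.mp hu with hu | hu
    · refine ⟨(lwa_Py h (show s < s + 1 by omega) hu).1, (h.wP s (by omega) u hu).1, ?_⟩
      rw [G.adj_comm]
      exact h.arc.fst s (Nat.zero_le _) (by omega) u hu
    · have hu' : u = n (s + 1) := by simpa using hu
      subst hu'
      refine ⟨hyq.ne.symm, fun he => h.wy.2 (he ▸ hyq), ?_⟩
      refine iff_of_false (hqi s (by omega)) fun he => ?_
      exact (lwa_Py h (show s < s + 1 by omega) (List.mem_of_mem_head? he)).2 hyq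
  · intro u hu
    have hu' : u = z := by simpa using hu
    subst hu'
    refine ⟨fun i _ hi => ⟨?_, fun h0 => (h.zn i (by omega) (by omega)).2⟩,
      fun i _ hi v hv => h.zP i (by omega) v hv⟩
    rcases Nat.eq_zero_or_pos i with h0 | h0
    · subst h0; exact h.z0.ne
    · exact (h.zn i h0 (by omega)).1
  · intro u hu
    rcases List.mem_append.mp hu with hu | hu
    · refine ⟨fun i _ hi => ⟨?_, fun h0 ha => ?_⟩, fun i _ hi v hv => ?_⟩
      · intro he
        exact (lwa_Py h (show s < s + 1 by omega) hu).2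
          (he ▸ h.arc.xn i (Nat.zero_le _) (by omega))
      · exact h.arc.cln s i (Nat.zero_le _) (by omega) (Nat.zero_le _) (by omega) (by omega)
          (by omega) u hu ha.symm
      · have := hsep i (by omega) v hv u hu
        exact ⟨this.1.symm, fun ha => this.2 ha.symm⟩
    · have hu' : u = n (s + 1) := by simpa using hu
      subst hu'
      refine ⟨fun i _ hi => ⟨(h.arc.inj i (s + 1) (Nat.zero_le _) (by omega) le_rfl).symm,
        fun h0 => hqi i (by omega)⟩, fun i _ hi v hv => ⟨?_, h.arc.cln i (s + 1)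
          (Nat.zero_le _) (by omega) (Nat.zero_le _) le_rfl (by omega) (by omega) v hv⟩⟩
      intro he
      exact (lwa_Py h (show i < s + 1 by omega) hv).2 (he ▸ hyq)
  · intro u hu v hv
    have hu' : u = z := by simpa using hu
    subst hu'
    rcases List.mem_append.mp hv with hv | hv
    · exact h.zP s (by omega) v hv
    · have hv' : v = n (s + 1) := by simpa using hv
      subst hv'
      exact h.zn (s + 1) (by omega) le_rfl

/-- a chord from the last vertex to the vertex `n t`, `t = r - 2`: ladder with a connector -/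
theorem lwa_c (G : SimpleGraph V) (y w z : V) (n : ℕ → V) (P : ℕ → List V) (t : ℕ)
    (hLPW : ST_LPW) (hR : Red G)
    (h : LwaC G y w z n P (t + 2)) (hA : Arc G y n P 0 (0 + t)) (h1 : 1 ≤ t)
    (hqt : G.Adj (n (t + 2)) (n t)) (hqi : ∀ i, i < t → ¬ G.Adj (n (t + 2)) (n i))
    (hq1 : ¬ G.Adj (n (t + 2)) (n (t + 1))) : False := by
  have hL := lwa_b G y w z n P (t + 2) t h hA (by omega) hqt hqi
  obtain ⟨v0, hv0⟩ := List.exists_mem_of_ne_nil _ (h.arc.ne (t + 1) (Nat.zero_le _) (by omega))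
  have hv := lwa_Py h (show t + 1 < t + 2 by omega) hv0
  have hyn : ∀ i, i ≤ t + 2 → G.Adj y (n i) := fun i hi => h.arc.xn i (Nat.zero_le _) hi
  have hvn : ∀ i, i ≤ t + 2 → v0 ≠ n i := fun i hi he => hv.2 (he ▸ hyn i hi)
  refine hLPW V G y y w [z] n P 0 t [n (t + 2)] true true hL h1 (n (t + 1)) [] (n (t + 1)) ?_ ?_
    {v | v ≠ v0} ?_ ?_ (hR.naj v0)
  · refine ⟨hyn (t + 1) (by omega), h.wn (t + 1) (by omega), Or.inl ⟨rfl, rfl⟩,
      fun hh => absurd rfl hh, by simp, ?_⟩
    intro u hu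
    have hu' : u = n (t + 1) := by simpa using hu
    subst hu'
    exact ⟨(hyn (t + 1) (by omega)).ne.symm, (h.wn (t + 1) (by omega)).ne.symm⟩
  · intro u hu
    have hu' : u = n (t + 1) := by simpa using hu
    subst hu'
    refine ⟨?_, ?_, fun i _ hi => ⟨(h.arc.inj i (t + 1) (Nat.zero_le _) (by omega)
      (by omega)).symm, fun ha => h.nn i (t + 1) (by omega) (by omega) ha.symm⟩,
      fun i _ hi v hv' => ⟨?_, h.arc.cln i (t + 1) (Nat.zero_le _) (by omega) (Nat.zero_le _)
        (by omega) (by omega) (by omega) v hv'⟩⟩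
    · intro v hv'
      have hv'' : v = z := by simpa using hv'
      subst hv''
      have := h.zn (t + 1) (by omega) (by omega)
      exact ⟨this.1.symm, fun ha => this.2 ha.symm⟩
    · intro v hv'
      have hv'' : v = n (t + 2) := by simpa using hv'
      subst hv''
      exact ⟨h.arc.inj (t + 1) (t + 2) (Nat.zero_le _) (by omega) (by omega),
        fun ha => hq1 ha.symm⟩
    · intro he
      exact (lwa_Py h (show i < t + 2 by omega) hv').2 (he ▸ hyn (t + 1) (by omega))
  · rintro v (hh | hh | hh | hh | ⟨i, _, hi, hh⟩ | ⟨i, _, hi, hh⟩)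
    · subst hh; exact hv.1.symm
    · subst hh; exact (h.wP (t + 1) (by omega) v0 hv0).1.symm
    · have hh' : v = z := by simpa using hh
      subst hh'
      exact (h.zP (t + 1) (by omega) v0 hv0).1
    · have hh' : v = n (t + 2) := by simpa using hh
      subst hh'
      exact (hvn (t + 2) (by omega)).symm
    · subst hh
      exact (hvn i (by omega)).symm
    · exact (h.arc.sep i (t + 1) (Nat.zero_le _) (by omega) (by omega) v hh v0 hv0).1
  · intro u hu
    have hu' : u = n (t + 1) := by simpa using hu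
    subst hu'
    exact (hvn (t + 1) (by omega)).symm

/-- a long chord contradicts (CI) -/
theorem lwa_d (G : SimpleGraph V) (y w z : V) (n : ℕ → V) (P : ℕ → List V) (r i : ℕ)
    (hARC : ST_ARC) (hCI : CI G) (h : LwaC G y w z n P r) (hi : i + 3 ≤ r)
    (hq : G.Adj (n r) (n i)) (hq1 : ¬ G.Adj (n r) (n (i + 1))) : False := by
  have hyn : ∀ j, j ≤ r → G.Adj y (n j) := fun j hj => h.arc.xn j (Nat.zero_le _) hj
  have hsub : ∀ c d, c ≤ d → d ≤ r → ∀ v, (∀ j, c ≤ j → j ≤ d → n j ∈ Far G v) →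
      (∀ j, c ≤ j → j < d → ∀ u ∈ P j, u ∈ Far G v) → Comp G v (n c) (n d) := by
    intro c d hcd hd v e1 e2
    exact (hARC V G y n P c d ((hARC V G y n P 0 r h.arc).1 c d (Nat.zero_le _) hcd hd)).2 v e1
      e2 c d le_rfl hcd hcd le_rfl
  have hPn : ∀ j k, j < r → k ≤ r → k ≠ j → k ≠ j + 1 → ∀ u ∈ P j, u ∈ Far G (n k) := by
    intro j k hj hk h1 h2 u hu
    exact ⟨fun he => (lwa_Py h hj hu).2 (he ▸ hyn k hk),
      h.arc.cln j k (Nat.zero_le _) hj (Nat.zero_le _) hk h1 h2 u hu⟩
  have hF : ∀ j k, j < k → k < r → n j ∈ Far G (n k) ∧ n k ∈ Far G (n j) := by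
    intro j k hjk hk
    have h1 := h.arc.inj j k (Nat.zero_le _) hjk (by omega)
    exact ⟨⟨h1, fun ha => h.nn j k hjk hk ha.symm⟩, ⟨h1.symm, h.nn j k hjk hk⟩⟩
  refine hCI ⟨y, n i, n (i + 1), n (i + 2), hyn i (by omega), hyn (i + 1) (by omega),
    hyn (i + 2) (by omega), ?_, ?_, ?_⟩
  · refine hsub i (i + 1) (by omega) (by omega) _ (fun j h1 h2 => ?_) (fun j h1 h2 => ?_)
    · exact (hF j (i + 2) (by omega) (by omega)).1
    · exact hPn j (i + 2) (by omega) (by omega) (by omega) (by omega)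
  · refine hsub (i + 1) (i + 2) (by omega) (by omega) _ (fun j h1 h2 => ?_) (fun j h1 h2 => ?_)
    · exact (hF i j (by omega) (by omega)).2
    · exact hPn j i (by omega) (by omega) (by omega) (by omega)
  · have hrF : n r ∈ Far G (n (i + 1)) :=
      ⟨(h.arc.inj (i + 1) r (Nat.zero_le _) (by omega) le_rfl).symm, fun ha => hq1 ha.symm⟩
    have h2 : Comp G (n (i + 1)) (n (i + 2)) (n r) := by
      refine hsub (i + 2) r (by omega) le_rfl _ (fun j h1 h2 => ?_) (fun j h1 h2 => ?_)
      · rcases Nat.lt_or_ge j r with h3 | h3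
        · exact (hF (i + 1) j (by omega) h3).2
        · have : j = r := by omega
          subst this
          exact hrF
      · exact hPn j (i + 1) (by omega) (by omega) (by omega) (by omega)
    have h3 : Comp G (n (i + 1)) (n r) (n i) :=
      Comp.adj hrF (hF i (i + 1) (by omega) (by omega)).1 hq
    exact (h2.trans h3).symm

theorem st_LWA (hLWR : ST_LWR) (hLW2 : ST_LW2) (hRAY : ST_RAY) (hARC : ST_ARC) (hLPN : ST_LPN)
    (hLPW : ST_LPW) : ST_LWA := by
  intro V G Q hR hCI hMx hB x y r E hL w q hw hwc hq hwq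
  have hr := hL.r3
  obtain ⟨r1, _, r3, _, _, r6⟩ := hRAY V G Q hR.df hMx
  have hqn : ∀ i, i + 2 ≤ r → q ∉ Att G y (E i) := fun i hi hh => hwq (hwc i hi q hh)
  obtain ⟨n, P, hA, hn0, hnr, hmid, hP, hnn⟩ := hLWR V G Q hR.df hMx x y r E hL q hq hqn
  obtain ⟨z, hzQ, hzx, hzy⟩ := hB x y
  have hyx : G.Adj y x := hMx.1 y hL.yQ x hL.xQ hL.xy.symm
  have hyz : G.Adj y z := hMx.1 y hL.yQ z hzQ hzy.symm
  have hxa : x ∈ Att G y (E 0) := (r1 x (E 0) y hL.ray0 hL.yQ hL.xy.symm).2
  have hwy : w ∈ Far G y := hw.2.1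
  have hwQ : w ∉ Q := r3 y hL.yQ w hwy
  have hwx : G.Adj w x := hwc 0 (by omega) x hxa
  have hwz : w ∈ Far G z := (r1 x w z ⟨hL.xQ, hwx.symm, hwQ⟩ hzQ hzx).1
  have hyn : ∀ i, i ≤ r → G.Adj y (n i) := fun i hi => hA.xn i (Nat.zero_le _) hi
  have hqQ : q ∉ Q := fun hh => hLW2 V G Q hR.df hCI hMx x y r E hL q hh hq
  have hnQ : ∀ i, 0 < i → i ≤ r → n i ∉ Q := by
    intro i h0 hi
    rcases Nat.lt_or_ge i r with h1 | h1
    · exact (hmid i h0 h1).1
    · have : i = r := by omega
      subst this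
      rw [hnr]
      exact hqQ
  have hC : LwaC G y w z n P r := by
    refine ⟨hA, hnn, hwy, ?_, ?_, by rw [hnr]; exact hwq, hyz, fun ha => hwz.2 ha.symm, ?_, ?_, ?_⟩
    · intro i hi
      rcases Nat.eq_zero_or_pos i with h0 | h0
      · subst h0
        rw [hn0]
        exact hwx
      · exact hwc (i - 1) (by omega) _ (hmid i h0 hi).2.1
    · intro i hi u hu
      have hc := hP i hi u hu
      refine ⟨fun he => hL.ncm i r hi le_rfl ?_, fun ha => hL.ncm i r hi le_rfl ?_⟩
      · exact (he ▸ hc).trans hw.symm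
      · exact (hc.step hwy ha.symm).trans hw.symm
    · rw [hn0]
      exact hMx.1 z hzQ x hL.xQ hzx
    · intro i h0 hi
      have := r6 y hL.yQ (n i) (hyn i hi) (hnQ i h0 hi) z hzQ hzy
      exact ⟨this.1.symm, this.2⟩
    · intro i hi u hu
      have hc := hP i hi u hu
      refine ⟨fun he => hc.2.1.2 (he ▸ hyz), fun ha => ?_⟩
      have hza : z ∈ Att G y (E i) := ⟨hyz, u, hc, ha⟩
      rcases Nat.lt_or_ge (i + 1) r with h1 | h1
      · exact hL.qat i (by omega) z hzQ hzx hza
      · have h2 : i = r - 1 := by omega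
        rw [h2] at hza
        exact hLW2 V G Q hR.df hCI hMx x y r E hL z hzQ hza
  have hsub : ∀ t, t ≤ r → Arc G y n P 0 (0 + t) := fun t ht =>
    (hARC V G y n P 0 r hA).1 0 (0 + t) le_rfl (by omega) (by omega)
  -- at most one chord at the last vertex
  have huniq : ∀ i j, i < j → j < r → G.Adj (n r) (n i) → ¬ G.Adj (n r) (n j) := by
    intro i j hij hj h1 h2
    exact hnn i j hij hj (hR.df y (n r) (n i) (n j) (hyn r le_rfl) (hyn i (by omega)) h1
      (hyn j (by omega)) h2 (hA.inj i j (Nat.zero_le _) hij (by omega)))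
  obtain ⟨k, hk⟩ := hL.odd
  by_cases hch : ∃ i, i < r ∧ G.Adj (n r) (n i)
  · obtain ⟨i, hi, hqi⟩ := hch
    rcases Nat.lt_or_ge (i + 2) r with h1 | h1
    · exact absurd (lwa_d G y w z n P r i hARC hCI hC (by omega) hqi
        (huniq i (i + 1) (by omega) (by omega) hqi)) id
    · rcases Nat.lt_or_ge (i + 1) r with h2 | h2
      · have h3 : r = i + 2 := by omega
        subst h3
        exact absurd (lwa_c G y w z n P i hLPW hR hC (hsub i (by omega)) (by omega) hqi
          (fun j hj hh => huniq j i hj (by omega) hh hqi)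
          (huniq i (i + 1) (by omega) (by omega) hqi)) id
      · have h3 : r = i + 1 := by omega
        subst h3
        have hLP := lwa_b G y w z n P (i + 1) i hC (hsub i (by omega)) (by omega) hqi
          (fun j hj hh => huniq j i hj (by omega) hh hqi)
        exact ((hLPN V G y y w [z] n P 0 i [n (i + 1)] true true hLP
          (Or.inl ⟨rfl, ⟨k, by omega⟩, by omega⟩)).2 hR).1
  · obtain ⟨s, hs⟩ : ∃ s, r = s + 1 := ⟨r - 1, by omega⟩
    subst hs
    have hLP := lwa_a G y w z n P s hC (hsub s (by omega)) (fun i hi hh => hch ⟨i, hi, hh⟩)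
    exact ((hLPN V G y y w [z] n P 0 s _ true true hLP
      (Or.inl ⟨rfl, ⟨k, by omega⟩, by omega⟩)).2 hR).1

end Pool.Agent.Helper64.FL
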