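import Pool.Agent.Helper64.FL.StG

/-! Full list for MP_866009_co: the configurations preIIAa2, a3, a5, a6 and preIIAb2, b3, b5, b6. -/

set_option autoImplicit false

namespace Pool.Agent.Helper64.FL

open Pool.Agent.Helper64.CT Pool.Agent.Helper64.DT
open Pool.Agent.Helper64.HG (Ovl Model Circ IC HellyCircle ChordModel)

theorem qi2_tri {V : Type} {G : SimpleGraph V} {a w : V} {l : List V} (h : Pth G a l w)
    (e : a = w) : l = [] := by
  rcases h with h | h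
  · exact h.2
  · exact absurd e h.1

theorem qi2_pth {V : Type} {G : SimpleGraph V} {a w : V} {l : List V} (h : Pth G a l w)
    (e : a ≠ w) : IPt G (a :: (l ++ [w])) := by
  rcases h with h | h
  · exact absurd h.1 e
  · exact h.2

/-- symbols: 0=x 1=p 2=p' 3=q 4=t 5=w 6=z 7=r 8=c 9=f -/
def qi2_PA (a b : ℕ) : Pre :=
  ⟨10,
    [(0, 1), (0, 2), (0, 3), (4, 1), (4, 2), (5, 1), (6, a), (7, 3), (8, 1), (8, 2), (9, 3)],
    [(0, 4), (0, 5), (4, 3), (5, 2), (0, 6), (6, 4), (6, 5), (0, 7), (7, 4), (7, 5), (6, b), (0, 8), (8, 4), (8, 5), (8, 6), (8, 7), (8, 3), (0, 9), (9, 8), (9, 6), (9, 7)],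
    [(1, 2), (1, 3), (2, 3), (4, 9)],
    [(6, 7), (5, 9)],
    [([(6, 7)], 6, 3), ([(4, 9), (9, 5)], 4, 5)],
    [],
    [(6, 7, [1, 2]), (4, 9, [1, 2]), (9, 5, [1, 2, 3])]⟩

theorem qi2_A (hB : ST_PTB) {V : Type} (G : SimpleGraph V) (K1 K2 K3 : Set V) (a b : ℕ)
    (x p p' q t w z r c f : V) (Lz l1 l2 : List V)
    (A12 : Anti G K1 K2) (A13 : Anti G K1 K3) (A23 : Anti G K2 K3)
    (F1 : ∀ u ∈ K1, x ≠ u ∧ ¬ G.Adj x u) (F2 : ∀ u ∈ K2, x ≠ u ∧ ¬ G.Adj x u)
    (F3 : ∀ u ∈ K3, x ≠ u ∧ ¬ G.Adj x u)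
    (xp : G.Adj x p) (xp' : G.Adj x p') (xq : G.Adj x q)
    (tp : G.Adj t p) (tp' : G.Adj t p') (tq : ¬ G.Adj t q) (wp : G.Adj w p)
    (wp' : ¬ G.Adj w p') (hC : c ∈ K2) (cp : G.Adj c p) (cp' : G.Adj c p')
    (cq : ¬ G.Adj c q)
    (za : G.Adj z ([x, p, p', q, t, w, z, r, c, f].getD a x))
    (zb : z ≠ [x, p, p', q, t, w, z, r, c, f].getD b x ∧
      ¬ G.Adj z ([x, p, p', q, t, w, z, r, c, f].getD b x))
    (zr : Nrl G K3 z Lz r q)
    (hP : OnP G K1 (fun u => G.Adj u q) t l1 f l2 w) :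
    PMod G (qi2_PA a b) (fun i => [x, p, p', q, t, w, z, r, c, f].getD i x)
      [Lz, l1, l2] := by
  have hT := hP.aK
  have hW := hP.wK
  have hF := hP.fK
  have hZ := zr.lK
  have hR := zr.rK
  have M0 := zr.LK
  have M1 := hP.l1K
  have M2 := hP.l2K
  have E1 : ∀ n, G.Adj x n → ∀ u ∈ K1, n ≠ u := fun n hn u hu e => (F1 u hu).2 (e ▸ hn)
  have E1' : ∀ n, G.Adj x n → ∀ u ∈ K1, u ≠ n := fun n hn u hu e => (F1 u hu).2 (e ▸ hn)
  have E2 : ∀ n, G.Adj x n → ∀ u ∈ K2, n ≠ u := fun n hn u hu e => (F2 u hu).2 (e ▸ hn)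
  have E2' : ∀ n, G.Adj x n → ∀ u ∈ K2, u ≠ n := fun n hn u hu e => (F2 u hu).2 (e ▸ hn)
  have E3 : ∀ n, G.Adj x n → ∀ u ∈ K3, n ≠ u := fun n hn u hu e => (F3 u hu).2 (e ▸ hn)
  have E3' : ∀ n, G.Adj x n → ∀ u ∈ K3, u ≠ n := fun n hn u hu e => (F3 u hu).2 (e ▸ hn)
  have A21 : Anti G K2 K1 := fun u hu v hv => ⟨(A12 v hv u hu).1.symm, fun e => (A12 v hv u hu).2 e.symm⟩
  have A31 : Anti G K3 K1 := fun u hu v hv => ⟨(A13 v hv u hu).1.symm, fun e => (A13 v hv u hu).2 e.symm⟩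
  have A32 : Anti G K3 K2 := fun u hu v hv => ⟨(A23 v hv u hu).1.symm, fun e => (A23 v hv u hu).2 e.symm⟩
  have P0 := (hB V G).2.1 _ _ _ zr.pth
  have P1 := (hB V G).2.1 _ _ _ hP.p1
  have P2 := (hB V G).2.1 _ _ _ hP.p2
  have R1 : w ∉ l1 := by
    rcases eq_or_ne f w with e | e
    · exact e ▸ P1.2.1
    · exact fun h => (hP.l1w e w h).1 rfl
  have L2 : t ∉ l2 := by
    rcases eq_or_ne t f with e | e
    · rw [e]
      exact P2.1
    · exact fun h => (hP.al2 e t h).1 rfl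
  have pp : p ≠ p' := by
    rintro rfl
    exact wp' wp
  have pq : p ≠ q := by
    rintro rfl
    exact tq tp
  have p'q : p' ≠ q := by
    rintro rfl
    exact tq tp'
  constructor
  case e =>
    simp only [qi2_PA, List.forall_mem_cons, List.getD_cons_zero, List.getD_cons_succ]
    exact ⟨xp, xp', xq, tp, tp', wp, za, zr.rb, cp, cp', hP.ff, by simp⟩
  case d =>
    simp only [qi2_PA, List.forall_mem_cons, List.getD_cons_zero, List.getD_cons_succ]
    exact ⟨F1 _ hT,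
      F1 _ hW,
      ⟨E1' _ xq _ hT, tq⟩,
      ⟨E1' _ xp' _ hW, wp'⟩,
      F3 _ hZ,
      A31 _ hZ _ hT,
      A31 _ hZ _ hW,
      F3 _ hR,
      A31 _ hR _ hT,
      A31 _ hR _ hW,
      zb,
      F2 _ hC,
      A21 _ hC _ hT,
      A21 _ hC _ hW,
      A23 _ hC _ hZ,
      A23 _ hC _ hR,
      ⟨E2' _ xq _ hC, cq⟩,
      F1 _ hF,
      A12 _ hF _ hC,
      A13 _ hF _ hZ,
      A13 _ hF _ hR, by simp⟩
  case ne =>
    simp only [qi2_PA, List.forall_mem_cons, List.getD_cons_zero, List.getD_cons_succ]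
    have tf : t ≠ f := by
      rintro rfl
      exact tq hP.ff
    exact ⟨pp, pq, p'q, tf, by simp⟩
  case c =>
    simp only [qi2_PA, List.forall_mem_cons, List.getD_cons_zero, List.getD_cons_succ]
    refine ⟨fun h => ⟨E3' _ xq _ hZ, zr.lr h.1⟩,
      fun h => hP.aw h.1 h.2.1, by simp⟩
  case cn =>
    simp [qi2_PA]
  case len =>
    rfl
  case tri =>
    simp only [qi2_PA, List.zip_cons_cons, List.forall_mem_cons, List.getD_cons_zero,
      List.getD_cons_succ]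
    exact ⟨qi2_tri zr.pth, qi2_tri hP.p1, qi2_tri hP.p2, by simp⟩
  case pth =>
    simp only [qi2_PA, List.zip_cons_cons, List.forall_mem_cons, List.getD_cons_zero,
      List.getD_cons_succ]
    exact ⟨qi2_pth zr.pth, qi2_pth hP.p1, qi2_pth hP.p2, by simp⟩
  case dis =>
    simp only [qi2_PA, List.zip_cons_cons, List.forall_mem_cons]
    refine ⟨?_, ?_, ?_, by simp⟩
    · intro i hi
      interval_cases i <;> simp only [List.getD_cons_zero, List.getD_cons_succ]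
      · exact fun h => (F3 _ (M0 _ h)).1 rfl
      · exact fun h => E3 _ xp _ (M0 _ h) rfl
      · exact fun h => E3 _ xp' _ (M0 _ h) rfl
      · exact fun h => E3 _ xq _ (M0 _ h) rfl
      · exact fun h => (A13 _ hT _ (M0 _ h)).1 rfl
      · exact fun h => (A13 _ hW _ (M0 _ h)).1 rfl
      · exact P0.1
      · exact P0.2.1
      · exact fun h => (A23 _ hC _ (M0 _ h)).1 rfl
      · exact fun h => (A13 _ hF _ (M0 _ h)).1 rfl
    · intro i hi
      interval_cases i <;> simp only [List.getD_cons_zero, List.getD_cons_succ]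
      · exact fun h => (F1 _ (M1 _ h)).1 rfl
      · exact fun h => E1 _ xp _ (M1 _ h) rfl
      · exact fun h => E1 _ xp' _ (M1 _ h) rfl
      · exact fun h => E1 _ xq _ (M1 _ h) rfl
      · exact P1.1
      · exact R1
      · exact fun h => (A31 _ hZ _ (M1 _ h)).1 rfl
      · exact fun h => (A31 _ hR _ (M1 _ h)).1 rfl
      · exact fun h => (A21 _ hC _ (M1 _ h)).1 rfl
      · exact P1.2.1
    · intro i hi
      interval_cases i <;> simp only [List.getD_cons_zero, List.getD_cons_succ]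
      · exact fun h => (F1 _ (M2 _ h)).1 rfl
      · exact fun h => E1 _ xp _ (M2 _ h) rfl
      · exact fun h => E1 _ xp' _ (M2 _ h) rfl
      · exact fun h => E1 _ xq _ (M2 _ h) rfl
      · exact L2
      · exact P2.2.1
      · exact fun h => (A31 _ hZ _ (M2 _ h)).1 rfl
      · exact fun h => (A31 _ hR _ (M2 _ h)).1 rfl
      · exact fun h => (A21 _ hC _ (M2 _ h)).1 rfl
      · exact P2.1
  case cln =>
    simp only [qi2_PA, List.zip_cons_cons, List.forall_mem_cons]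
    refine ⟨?_, ?_, ?_, by simp⟩
    · intro i hi hU h1 h2 u hu
      interval_cases i <;> simp only [List.getD_cons_zero, List.getD_cons_succ] at h1 h2 ⊢
      · exact (F3 _ (M0 _ hu)).2
      · exact absurd (by simp) hU
      · exact absurd (by simp) hU
      · exact fun e => zr.Lb u hu e.symm
      · exact (A13 _ hT _ (M0 _ hu)).2
      · exact (A13 _ hW _ (M0 _ hu)).2
      · exact absurd rfl h1
      · exact absurd rfl h2
      · exact (A23 _ hC _ (M0 _ hu)).2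
      · exact (A13 _ hF _ (M0 _ hu)).2
    · intro i hi hU h1 h2 u hu
      interval_cases i <;> simp only [List.getD_cons_zero, List.getD_cons_succ] at h1 h2 ⊢
      · exact (F1 _ (M1 _ hu)).2
      · exact absurd (by simp) hU
      · exact absurd (by simp) hU
      · exact fun e => hP.fl u hu e.symm
      · exact absurd rfl h1
      · exact fun e => (hP.l1w h2.symm u hu).2 e.symm
      · exact (A31 _ hZ _ (M1 _ hu)).2
      · exact (A31 _ hR _ (M1 _ hu)).2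
      · exact (A21 _ hC _ (M1 _ hu)).2
      · exact absurd rfl h2
    · intro i hi hU h1 h2 u hu
      interval_cases i <;> simp only [List.getD_cons_zero, List.getD_cons_succ] at h1 h2 ⊢
      · exact (F1 _ (M2 _ hu)).2
      · exact absurd (by simp) hU
      · exact absurd (by simp) hU
      · exact absurd (by simp) hU
      · exact (hP.al2 h1 u hu).2
      · exact absurd rfl h2
      · exact (A31 _ hZ _ (M2 _ hu)).2
      · exact (A31 _ hR _ (M2 _ hu)).2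
      · exact (A21 _ hC _ (M2 _ hu)).2
      · exact absurd rfl h1
  case sep =>
    simp only [List.pairwise_cons, List.forall_mem_cons]
    refine ⟨⟨fun u hu v hv => A31 _ (M0 u hu) _ (M1 v hv),
      fun u hu v hv => A31 _ (M0 u hu) _ (M2 v hv), by simp⟩,
      ⟨hP.l12, by simp⟩,
      by simp, by simp⟩

/-- symbols: 0=x 1=p 2=p' 3=q 4=t 5=w 6=z 7=r 8=c 9=f 10=y 11=y' -/
def qi2_PB (a b : ℕ) : Pre :=
  ⟨12,
    [(0, 1), (0, 2), (0, 3), (4, 1), (4, 2), (5, 1), (6, a), (7, 3), (8, 1), (8, 2), (10, 3), (11, 9)],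
    [(0, 4), (0, 5), (4, 3), (5, 2), (0, 6), (6, 4), (6, 5), (0, 7), (7, 4), (7, 5), (6, b), (0, 8), (8, 4), (8, 5), (8, 6), (8, 7), (8, 3), (4, 3), (5, 3), (0, 9), (9, 8), (9, 6), (9, 7), (9, 3), (0, 10), (10, 8), (10, 6), (10, 7), (0, 11), (11, 8), (11, 6), (11, 7)],
    [(1, 2), (1, 3), (2, 3), (11, 4), (11, 5), (10, 4), (10, 5), (10, 9)],
    [(6, 7), (4, 9), (5, 9), (10, 11)],
    [([(6, 7)], 6, 3), ([(4, 9), (9, 5)], 4, 5), ([(10, 11)], 11, 3), ([(4, 9)], 4, 11), ([(10, 11)], 10, 4), ([(10, 11)], 10, 9), ([(10, 11)], 10, 5)],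
    [],
    [(6, 7, [1, 2]), (4, 9, [1, 2]), (9, 5, [1, 2, 11, 10]), (10, 11, [1, 2])]⟩

theorem qi2_B (hB : ST_PTB) {V : Type} (G : SimpleGraph V) (K1 K2 K3 : Set V) (a b : ℕ)
    (x p p' q t w z r c f y y' : V) (Lz l1 l2 l3 : List V)
    (A12 : Anti G K1 K2) (A13 : Anti G K1 K3) (A23 : Anti G K2 K3)
    (F1 : ∀ u ∈ K1, x ≠ u ∧ ¬ G.Adj x u) (F2 : ∀ u ∈ K2, x ≠ u ∧ ¬ G.Adj x u)
    (F3 : ∀ u ∈ K3, x ≠ u ∧ ¬ G.Adj x u)
    (xp : G.Adj x p) (xp' : G.Adj x p') (xq : G.Adj x q)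
    (tp : G.Adj t p) (tp' : G.Adj t p') (tq : ¬ G.Adj t q) (wp : G.Adj w p)
    (wp' : ¬ G.Adj w p') (hC : c ∈ K2) (cp : G.Adj c p) (cp' : G.Adj c p')
    (cq : ¬ G.Adj c q)
    (za : G.Adj z ([x, p, p', q, t, w, z, r, c, f, y, y'].getD a x))
    (zb : z ≠ [x, p, p', q, t, w, z, r, c, f, y, y'].getD b x ∧
      ¬ G.Adj z ([x, p, p', q, t, w, z, r, c, f, y, y'].getD b x))
    (zr : Nrl G K3 z Lz r q)
    (hP : OffP G K1 (fun u => G.Adj u q) t l1 f l2 w y l3 y') :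
    PMod G (qi2_PB a b) (fun i => [x, p, p', q, t, w, z, r, c, f, y, y'].getD i x)
      [Lz, l1, l2, l3] := by
  have hT := hP.aK
  have hW := hP.wK
  have hF := hP.fK
  have hY := hP.yK
  have hY' := hP.y2K
  have hZ := zr.lK
  have hR := zr.rK
  have M0 := zr.LK
  have M1 := hP.l1K
  have M2 := hP.l2K
  have M3 := hP.l3K
  have E1 : ∀ n, G.Adj x n → ∀ u ∈ K1, n ≠ u := fun n hn u hu e => (F1 u hu).2 (e ▸ hn)
  have E1' : ∀ n, G.Adj x n → ∀ u ∈ K1, u ≠ n := fun n hn u hu e => (F1 u hu).2 (e ▸ hn)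
  have E2 : ∀ n, G.Adj x n → ∀ u ∈ K2, n ≠ u := fun n hn u hu e => (F2 u hu).2 (e ▸ hn)
  have E2' : ∀ n, G.Adj x n → ∀ u ∈ K2, u ≠ n := fun n hn u hu e => (F2 u hu).2 (e ▸ hn)
  have E3 : ∀ n, G.Adj x n → ∀ u ∈ K3, n ≠ u := fun n hn u hu e => (F3 u hu).2 (e ▸ hn)
  have E3' : ∀ n, G.Adj x n → ∀ u ∈ K3, u ≠ n := fun n hn u hu e => (F3 u hu).2 (e ▸ hn)
  have A21 : Anti G K2 K1 := fun u hu v hv => ⟨(A12 v hv u hu).1.symm, fun e => (A12 v hv u hu).2 e.symm⟩
  have A31 : Anti G K3 K1 := fun u hu v hv => ⟨(A13 v hv u hu).1.symm, fun e => (A13 v hv u hu).2 e.symm⟩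
  have A32 : Anti G K3 K2 := fun u hu v hv => ⟨(A23 v hv u hu).1.symm, fun e => (A23 v hv u hu).2 e.symm⟩
  have P0 := (hB V G).2.1 _ _ _ zr.pth
  have P1 := (hB V G).2.1 _ _ _ hP.p1
  have P2 := (hB V G).2.1 _ _ _ hP.p2
  have P3 := (hB V G).2.1 _ _ _ hP.p3
  have R1 : w ∉ l1 := by
    rcases eq_or_ne f w with e | e
    · exact e ▸ P1.2.1
    · exact fun h => (hP.l1w e w h).1 rfl
  have L2 : t ∉ l2 := by
    rcases eq_or_ne t f with e | e
    · rw [e]
      exact P2.1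
    · exact fun h => (hP.al2 e t h).1 rfl
  have pp : p ≠ p' := by
    rintro rfl
    exact wp' wp
  have pq : p ≠ q := by
    rintro rfl
    exact tq tp
  have p'q : p' ≠ q := by
    rintro rfl
    exact tq tp'
  have Sl := hP.sep t (by simp)
  have Sf := hP.sep f (by simp)
  have Sr := hP.sep w (by simp)
  have S1 : ∀ v ∈ l1, _ := fun v hv => hP.sep v (by simp [hv])
  have S2 : ∀ v ∈ l2, _ := fun v hv => hP.sep v (by simp [hv])
  have Y1 : ∀ u ∈ l1, ¬ G.Adj y u := by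
    intro u hu
    rcases eq_or_ne y y' with e | e
    · rw [e]
      exact hP.y2l u hu
    · exact (S1 u hu).2.2.1 e
  constructor
  case e =>
    simp only [qi2_PB, List.forall_mem_cons, List.getD_cons_zero, List.getD_cons_succ]
    exact ⟨xp, xp', xq, tp, tp', wp, za, zr.rb, cp, cp', hP.yφ, hP.y2f, by simp⟩
  case d =>
    simp only [qi2_PB, List.forall_mem_cons, List.getD_cons_zero, List.getD_cons_succ]
    exact ⟨F1 _ hT,
      F1 _ hW,
      ⟨E1' _ xq _ hT, tq⟩,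
      ⟨E1' _ xp' _ hW, wp'⟩,
      F3 _ hZ,
      A31 _ hZ _ hT,
      A31 _ hZ _ hW,
      F3 _ hR,
      A31 _ hR _ hT,
      A31 _ hR _ hW,
      zb,
      F2 _ hC,
      A21 _ hC _ hT,
      A21 _ hC _ hW,
      A23 _ hC _ hZ,
      A23 _ hC _ hR,
      ⟨E2' _ xq _ hC, cq⟩,
      ⟨E1' _ xq _ hT, tq⟩,
      ⟨E1' _ xq _ hW, hP.nw⟩,
      F1 _ hF,
      A12 _ hF _ hC,
      A13 _ hF _ hZ,
      A13 _ hF _ hR,
      ⟨E1' _ xq _ hF, hP.nf⟩,
      F1 _ hY,
      A12 _ hY _ hC,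
      A13 _ hY _ hZ,
      A13 _ hY _ hR,
      F1 _ hY',
      A12 _ hY' _ hC,
      A13 _ hY' _ hZ,
      A13 _ hY' _ hR, by simp⟩
  case ne =>
    simp only [qi2_PB, List.forall_mem_cons, List.getD_cons_zero, List.getD_cons_succ]
    exact ⟨pp, pq, p'q, Sl.2.1, Sr.2.1, Sl.1, Sr.1, Sf.1, by simp⟩
  case c =>
    simp only [qi2_PB, List.forall_mem_cons, List.getD_cons_zero, List.getD_cons_succ]
    refine ⟨fun h => ⟨E3' _ xq _ hZ, zr.lr h.1⟩,
      fun h => hP.aw h.1 h.2.1,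
      fun h => ⟨E1' _ xq _ hY', hP.y2φ h.1⟩,
      fun h => ⟨Sl.2.1.symm, fun e => hP.y2t h.1 e.symm⟩,
      fun h => ⟨Sl.1, Sl.2.2.1 h.1⟩,
      fun h => ⟨Sf.1, Sf.2.2.1 h.1⟩,
      fun h => ⟨Sr.1, Sr.2.2.1 h.1⟩, by simp⟩
  case cn =>
    simp [qi2_PB]
  case len =>
    rfl
  case tri =>
    simp only [qi2_PB, List.zip_cons_cons, List.forall_mem_cons, List.getD_cons_zero,
      List.getD_cons_succ]
    exact ⟨qi2_tri zr.pth, qi2_tri hP.p1, qi2_tri hP.p2, qi2_tri hP.p3, by simp⟩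
  case pth =>
    simp only [qi2_PB, List.zip_cons_cons, List.forall_mem_cons, List.getD_cons_zero,
      List.getD_cons_succ]
    exact ⟨qi2_pth zr.pth, qi2_pth hP.p1, qi2_pth hP.p2, qi2_pth hP.p3, by simp⟩
  case dis =>
    simp only [qi2_PB, List.zip_cons_cons, List.forall_mem_cons]
    refine ⟨?_, ?_, ?_, ?_, by simp⟩
    · intro i hi
      interval_cases i <;> simp only [List.getD_cons_zero, List.getD_cons_succ]
      · exact fun h => (F3 _ (M0 _ h)).1 rfl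
      · exact fun h => E3 _ xp _ (M0 _ h) rfl
      · exact fun h => E3 _ xp' _ (M0 _ h) rfl
      · exact fun h => E3 _ xq _ (M0 _ h) rfl
      · exact fun h => (A13 _ hT _ (M0 _ h)).1 rfl
      · exact fun h => (A13 _ hW _ (M0 _ h)).1 rfl
      · exact P0.1
      · exact P0.2.1
      · exact fun h => (A23 _ hC _ (M0 _ h)).1 rfl
      · exact fun h => (A13 _ hF _ (M0 _ h)).1 rfl
      · exact fun h => (A13 _ hY _ (M0 _ h)).1 rfl
      · exact fun h => (A13 _ hY' _ (M0 _ h)).1 rfl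
    · intro i hi
      interval_cases i <;> simp only [List.getD_cons_zero, List.getD_cons_succ]
      · exact fun h => (F1 _ (M1 _ h)).1 rfl
      · exact fun h => E1 _ xp _ (M1 _ h) rfl
      · exact fun h => E1 _ xp' _ (M1 _ h) rfl
      · exact fun h => E1 _ xq _ (M1 _ h) rfl
      · exact P1.1
      · exact R1
      · exact fun h => (A31 _ hZ _ (M1 _ h)).1 rfl
      · exact fun h => (A31 _ hR _ (M1 _ h)).1 rfl
      · exact fun h => (A21 _ hC _ (M1 _ h)).1 rfl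
      · exact P1.2.1
      · exact fun h => (S1 _ h).1 rfl
      · exact fun h => (S1 _ h).2.1 rfl
    · intro i hi
      interval_cases i <;> simp only [List.getD_cons_zero, List.getD_cons_succ]
      · exact fun h => (F1 _ (M2 _ h)).1 rfl
      · exact fun h => E1 _ xp _ (M2 _ h) rfl
      · exact fun h => E1 _ xp' _ (M2 _ h) rfl
      · exact fun h => E1 _ xq _ (M2 _ h) rfl
      · exact L2
      · exact P2.2.1
      · exact fun h => (A31 _ hZ _ (M2 _ h)).1 rfl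
      · exact fun h => (A31 _ hR _ (M2 _ h)).1 rfl
      · exact fun h => (A21 _ hC _ (M2 _ h)).1 rfl
      · exact P2.1
      · exact fun h => (S2 _ h).1 rfl
      · exact fun h => (S2 _ h).2.1 rfl
    · intro i hi
      interval_cases i <;> simp only [List.getD_cons_zero, List.getD_cons_succ]
      · exact fun h => (F1 _ (M3 _ h)).1 rfl
      · exact fun h => E1 _ xp _ (M3 _ h) rfl
      · exact fun h => E1 _ xp' _ (M3 _ h) rfl
      · exact fun h => E1 _ xq _ (M3 _ h) rfl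
      · exact fun h => (Sl.2.2.2 _ h).1 rfl
      · exact fun h => (Sr.2.2.2 _ h).1 rfl
      · exact fun h => (A31 _ hZ _ (M3 _ h)).1 rfl
      · exact fun h => (A31 _ hR _ (M3 _ h)).1 rfl
      · exact fun h => (A21 _ hC _ (M3 _ h)).1 rfl
      · exact fun h => (Sf.2.2.2 _ h).1 rfl
      · exact P3.1
      · exact P3.2.1
  case cln =>
    simp only [qi2_PB, List.zip_cons_cons, List.forall_mem_cons]
    refine ⟨?_, ?_, ?_, ?_, by simp⟩
    · intro i hi hU h1 h2 u hu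
      interval_cases i <;> simp only [List.getD_cons_zero, List.getD_cons_succ] at h1 h2 ⊢
      · exact (F3 _ (M0 _ hu)).2
      · exact absurd (by simp) hU
      · exact absurd (by simp) hU
      · exact fun e => zr.Lb u hu e.symm
      · exact (A13 _ hT _ (M0 _ hu)).2
      · exact (A13 _ hW _ (M0 _ hu)).2
      · exact absurd rfl h1
      · exact absurd rfl h2
      · exact (A23 _ hC _ (M0 _ hu)).2
      · exact (A13 _ hF _ (M0 _ hu)).2
      · exact (A13 _ hY _ (M0 _ hu)).2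
      · exact (A13 _ hY' _ (M0 _ hu)).2
    · intro i hi hU h1 h2 u hu
      interval_cases i <;> simp only [List.getD_cons_zero, List.getD_cons_succ] at h1 h2 ⊢
      · exact (F1 _ (M1 _ hu)).2
      · exact absurd (by simp) hU
      · exact absurd (by simp) hU
      · exact fun e => hP.nl1 u hu e.symm
      · exact absurd rfl h1
      · exact fun e => (hP.l1w h2.symm u hu).2 e.symm
      · exact (A31 _ hZ _ (M1 _ hu)).2
      · exact (A31 _ hR _ (M1 _ hu)).2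
      · exact (A21 _ hC _ (M1 _ hu)).2
      · exact absurd rfl h2
      · exact Y1 u hu
      · exact hP.y2l u hu
    · intro i hi hU h1 h2 u hu
      interval_cases i <;> simp only [List.getD_cons_zero, List.getD_cons_succ] at h1 h2 ⊢
      · exact (F1 _ (M2 _ hu)).2
      · exact absurd (by simp) hU
      · exact absurd (by simp) hU
      · exact fun e => hP.nl2 u hu e.symm
      · exact (hP.al2 h1 u hu).2
      · exact absurd rfl h2
      · exact (A31 _ hZ _ (M2 _ hu)).2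
      · exact (A31 _ hR _ (M2 _ hu)).2
      · exact (A21 _ hC _ (M2 _ hu)).2
      · exact absurd rfl h1
      · exact absurd (by simp) hU
      · exact absurd (by simp) hU
    · intro i hi hU h1 h2 u hu
      interval_cases i <;> simp only [List.getD_cons_zero, List.getD_cons_succ] at h1 h2 ⊢
      · exact (F1 _ (M3 _ hu)).2
      · exact absurd (by simp) hU
      · exact absurd (by simp) hU
      · exact fun e => hP.l3φ u hu e.symm
      · exact fun e => (Sl.2.2.2 _ hu).2 e.symm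
      · exact fun e => (Sr.2.2.2 _ hu).2 e.symm
      · exact (A31 _ hZ _ (M3 _ hu)).2
      · exact (A31 _ hR _ (M3 _ hu)).2
      · exact (A21 _ hC _ (M3 _ hu)).2
      · exact fun e => (Sf.2.2.2 _ hu).2 e.symm
      · exact absurd rfl h1
      · exact absurd rfl h2
  case sep =>
    simp only [List.pairwise_cons, List.forall_mem_cons]
    refine ⟨⟨fun u hu v hv => A31 _ (M0 u hu) _ (M1 v hv),
      fun u hu v hv => A31 _ (M0 u hu) _ (M2 v hv),
      fun u hu v hv => A31 _ (M0 u hu) _ (M3 v hv), by simp⟩,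
      ⟨hP.l12,
      fun u hu v hv => ⟨fun e => ((S1 u hu).2.2.2 v hv).1 e.symm,
        fun e => ((S1 u hu).2.2.2 v hv).2 e.symm⟩, by simp⟩,
      ⟨fun u hu v hv => ⟨fun e => ((S2 u hu).2.2.2 v hv).1 e.symm,
        fun e => ((S2 u hu).2.2.2 v hv).2 e.symm⟩, by simp⟩,
      by simp, by simp⟩

/-- symbols: 0=x 1=p 2=p' 3=q 4=s 5=t 6=w 7=z 8=r 9=c 10=f -/
def qi2_PC (a b : ℕ) : Pre :=
  ⟨11,
    [(0, 1), (0, 2), (0, 3), (0, 4), (5, 1), (5, 2), (6, 1), (7, a), (8, 3), (9, 1), (9, 2), (10, 4)],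
    [(0, 5), (0, 6), (5, 3), (6, 2), (0, 7), (7, 5), (7, 6), (0, 8), (8, 5), (8, 6), (7, b), (0, 9), (9, 5), (9, 6), (9, 7), (9, 8), (9, 3), (9, 4), (0, 10), (10, 9), (10, 7), (10, 8)],
    [(1, 2), (1, 3), (1, 4), (2, 3), (2, 4), (3, 4)],
    [(7, 8), (5, 10), (6, 10)],
    [([(7, 8)], 7, 3), ([(5, 10)], 5, 4), ([(5, 10), (10, 6)], 5, 6)],
    [],
    [(7, 8, [1, 2, 4]), (5, 10, [1, 2, 3]), (10, 6, [1, 2, 3, 4])]⟩

theorem qi2_C (hB : ST_PTB) {V : Type} (G : SimpleGraph V) (K1 K2 K3 : Set V) (a b : ℕ)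
    (x p p' q s t w z r c f : V) (Lz l1 l2 : List V)
    (A12 : Anti G K1 K2) (A13 : Anti G K1 K3) (A23 : Anti G K2 K3)
    (F1 : ∀ u ∈ K1, x ≠ u ∧ ¬ G.Adj x u) (F2 : ∀ u ∈ K2, x ≠ u ∧ ¬ G.Adj x u)
    (F3 : ∀ u ∈ K3, x ≠ u ∧ ¬ G.Adj x u)
    (xp : G.Adj x p) (xp' : G.Adj x p') (xq : G.Adj x q) (xs : G.Adj x s)
    (tp : G.Adj t p) (tp' : G.Adj t p') (tq : ¬ G.Adj t q) (wp : G.Adj w p)
    (wp' : ¬ G.Adj w p') (hC : c ∈ K2) (cp : G.Adj c p) (cp' : G.Adj c p')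
    (cq : ¬ G.Adj c q) (cs : ¬ G.Adj c s) (qs : q ≠ s)
    (za : G.Adj z ([x, p, p', q, s, t, w, z, r, c, f].getD a x))
    (zb : z ≠ [x, p, p', q, s, t, w, z, r, c, f].getD b x ∧
      ¬ G.Adj z ([x, p, p', q, s, t, w, z, r, c, f].getD b x))
    (zr : Nrl G K3 z Lz r q)
    (hP : OnP G K1 (fun u => G.Adj u s) t l1 f l2 w) :
    PMod G (qi2_PC a b) (fun i => [x, p, p', q, s, t, w, z, r, c, f].getD i x)
      [Lz, l1, l2] := by
  have hT := hP.aK
  have hW := hP.wK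
  have hF := hP.fK
  have hZ := zr.lK
  have hR := zr.rK
  have M0 := zr.LK
  have M1 := hP.l1K
  have M2 := hP.l2K
  have E1 : ∀ n, G.Adj x n → ∀ u ∈ K1, n ≠ u := fun n hn u hu e => (F1 u hu).2 (e ▸ hn)
  have E1' : ∀ n, G.Adj x n → ∀ u ∈ K1, u ≠ n := fun n hn u hu e => (F1 u hu).2 (e ▸ hn)
  have E2 : ∀ n, G.Adj x n → ∀ u ∈ K2, n ≠ u := fun n hn u hu e => (F2 u hu).2 (e ▸ hn)
  have E2' : ∀ n, G.Adj x n → ∀ u ∈ K2, u ≠ n := fun n hn u hu e => (F2 u hu).2 (e ▸ hn)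
  have E3 : ∀ n, G.Adj x n → ∀ u ∈ K3, n ≠ u := fun n hn u hu e => (F3 u hu).2 (e ▸ hn)
  have E3' : ∀ n, G.Adj x n → ∀ u ∈ K3, u ≠ n := fun n hn u hu e => (F3 u hu).2 (e ▸ hn)
  have A21 : Anti G K2 K1 := fun u hu v hv => ⟨(A12 v hv u hu).1.symm, fun e => (A12 v hv u hu).2 e.symm⟩
  have A31 : Anti G K3 K1 := fun u hu v hv => ⟨(A13 v hv u hu).1.symm, fun e => (A13 v hv u hu).2 e.symm⟩
  have A32 : Anti G K3 K2 := fun u hu v hv => ⟨(A23 v hv u hu).1.symm, fun e => (A23 v hv u hu).2 e.symm⟩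
  have P0 := (hB V G).2.1 _ _ _ zr.pth
  have P1 := (hB V G).2.1 _ _ _ hP.p1
  have P2 := (hB V G).2.1 _ _ _ hP.p2
  have R1 : w ∉ l1 := by
    rcases eq_or_ne f w with e | e
    · exact e ▸ P1.2.1
    · exact fun h => (hP.l1w e w h).1 rfl
  have L2 : t ∉ l2 := by
    rcases eq_or_ne t f with e | e
    · rw [e]
      exact P2.1
    · exact fun h => (hP.al2 e t h).1 rfl
  have pp : p ≠ p' := by
    rintro rfl
    exact wp' wp
  have pq : p ≠ q := by
    rintro rfl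
    exact tq tp
  have p'q : p' ≠ q := by
    rintro rfl
    exact tq tp'
  have ps : p ≠ s := by
    rintro rfl
    exact cs cp
  have p's : p' ≠ s := by
    rintro rfl
    exact cs cp'
  constructor
  case e =>
    simp only [qi2_PC, List.forall_mem_cons, List.getD_cons_zero, List.getD_cons_succ]
    exact ⟨xp, xp', xq, xs, tp, tp', wp, za, zr.rb, cp, cp', hP.ff, by simp⟩
  case d =>
    simp only [qi2_PC, List.forall_mem_cons, List.getD_cons_zero, List.getD_cons_succ]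
    exact ⟨F1 _ hT,
      F1 _ hW,
      ⟨E1' _ xq _ hT, tq⟩,
      ⟨E1' _ xp' _ hW, wp'⟩,
      F3 _ hZ,
      A31 _ hZ _ hT,
      A31 _ hZ _ hW,
      F3 _ hR,
      A31 _ hR _ hT,
      A31 _ hR _ hW,
      zb,
      F2 _ hC,
      A21 _ hC _ hT,
      A21 _ hC _ hW,
      A23 _ hC _ hZ,
      A23 _ hC _ hR,
      ⟨E2' _ xq _ hC, cq⟩,
      ⟨E2' _ xs _ hC, cs⟩,
      F1 _ hF,
      A12 _ hF _ hC,
      A13 _ hF _ hZ,
      A13 _ hF _ hR, by simp⟩
  case ne =>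
    simp only [qi2_PC, List.forall_mem_cons, List.getD_cons_zero, List.getD_cons_succ]
    exact ⟨pp, pq, ps, p'q, p's, qs, by simp⟩
  case c =>
    simp only [qi2_PC, List.forall_mem_cons, List.getD_cons_zero, List.getD_cons_succ]
    refine ⟨fun h => ⟨E3' _ xq _ hZ, zr.lr h.1⟩,
      fun h => ⟨E1' _ xs _ hT, hP.ft h.1⟩,
      fun h => hP.aw h.1 h.2.1, by simp⟩
  case cn =>
    simp [qi2_PC]
  case len =>
    rfl
  case tri =>
    simp only [qi2_PC, List.zip_cons_cons, List.forall_mem_cons, List.getD_cons_zero,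
      List.getD_cons_succ]
    exact ⟨qi2_tri zr.pth, qi2_tri hP.p1, qi2_tri hP.p2, by simp⟩
  case pth =>
    simp only [qi2_PC, List.zip_cons_cons, List.forall_mem_cons, List.getD_cons_zero,
      List.getD_cons_succ]
    exact ⟨qi2_pth zr.pth, qi2_pth hP.p1, qi2_pth hP.p2, by simp⟩
  case dis =>
    simp only [qi2_PC, List.zip_cons_cons, List.forall_mem_cons]
    refine ⟨?_, ?_, ?_, by simp⟩
    · intro i hi
      interval_cases i <;> simp only [List.getD_cons_zero, List.getD_cons_succ]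
      · exact fun h => (F3 _ (M0 _ h)).1 rfl
      · exact fun h => E3 _ xp _ (M0 _ h) rfl
      · exact fun h => E3 _ xp' _ (M0 _ h) rfl
      · exact fun h => E3 _ xq _ (M0 _ h) rfl
      · exact fun h => E3 _ xs _ (M0 _ h) rfl
      · exact fun h => (A13 _ hT _ (M0 _ h)).1 rfl
      · exact fun h => (A13 _ hW _ (M0 _ h)).1 rfl
      · exact P0.1
      · exact P0.2.1
      · exact fun h => (A23 _ hC _ (M0 _ h)).1 rfl
      · exact fun h => (A13 _ hF _ (M0 _ h)).1 rfl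
    · intro i hi
      interval_cases i <;> simp only [List.getD_cons_zero, List.getD_cons_succ]
      · exact fun h => (F1 _ (M1 _ h)).1 rfl
      · exact fun h => E1 _ xp _ (M1 _ h) rfl
      · exact fun h => E1 _ xp' _ (M1 _ h) rfl
      · exact fun h => E1 _ xq _ (M1 _ h) rfl
      · exact fun h => E1 _ xs _ (M1 _ h) rfl
      · exact P1.1
      · exact R1
      · exact fun h => (A31 _ hZ _ (M1 _ h)).1 rfl
      · exact fun h => (A31 _ hR _ (M1 _ h)).1 rfl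
      · exact fun h => (A21 _ hC _ (M1 _ h)).1 rfl
      · exact P1.2.1
    · intro i hi
      interval_cases i <;> simp only [List.getD_cons_zero, List.getD_cons_succ]
      · exact fun h => (F1 _ (M2 _ h)).1 rfl
      · exact fun h => E1 _ xp _ (M2 _ h) rfl
      · exact fun h => E1 _ xp' _ (M2 _ h) rfl
      · exact fun h => E1 _ xq _ (M2 _ h) rfl
      · exact fun h => E1 _ xs _ (M2 _ h) rfl
      · exact L2
      · exact P2.2.1
      · exact fun h => (A31 _ hZ _ (M2 _ h)).1 rfl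
      · exact fun h => (A31 _ hR _ (M2 _ h)).1 rfl
      · exact fun h => (A21 _ hC _ (M2 _ h)).1 rfl
      · exact P2.1
  case cln =>
    simp only [qi2_PC, List.zip_cons_cons, List.forall_mem_cons]
    refine ⟨?_, ?_, ?_, by simp⟩
    · intro i hi hU h1 h2 u hu
      interval_cases i <;> simp only [List.getD_cons_zero, List.getD_cons_succ] at h1 h2 ⊢
      · exact (F3 _ (M0 _ hu)).2
      · exact absurd (by simp) hU
      · exact absurd (by simp) hU
      · exact fun e => zr.Lb u hu e.symm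
      · exact absurd (by simp) hU
      · exact (A13 _ hT _ (M0 _ hu)).2
      · exact (A13 _ hW _ (M0 _ hu)).2
      · exact absurd rfl h1
      · exact absurd rfl h2
      · exact (A23 _ hC _ (M0 _ hu)).2
      · exact (A13 _ hF _ (M0 _ hu)).2
    · intro i hi hU h1 h2 u hu
      interval_cases i <;> simp only [List.getD_cons_zero, List.getD_cons_succ] at h1 h2 ⊢
      · exact (F1 _ (M1 _ hu)).2
      · exact absurd (by simp) hU
      · exact absurd (by simp) hU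
      · exact absurd (by simp) hU
      · exact fun e => hP.fl u hu e.symm
      · exact absurd rfl h1
      · exact fun e => (hP.l1w h2.symm u hu).2 e.symm
      · exact (A31 _ hZ _ (M1 _ hu)).2
      · exact (A31 _ hR _ (M1 _ hu)).2
      · exact (A21 _ hC _ (M1 _ hu)).2
      · exact absurd rfl h2
    · intro i hi hU h1 h2 u hu
      interval_cases i <;> simp only [List.getD_cons_zero, List.getD_cons_succ] at h1 h2 ⊢
      · exact (F1 _ (M2 _ hu)).2
      · exact absurd (by simp) hU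
      · exact absurd (by simp) hU
      · exact absurd (by simp) hU
      · exact absurd (by simp) hU
      · exact (hP.al2 h1 u hu).2
      · exact absurd rfl h2
      · exact (A31 _ hZ _ (M2 _ hu)).2
      · exact (A31 _ hR _ (M2 _ hu)).2
      · exact (A21 _ hC _ (M2 _ hu)).2
      · exact absurd rfl h1
  case sep =>
    simp only [List.pairwise_cons, List.forall_mem_cons]
    refine ⟨⟨fun u hu v hv => A31 _ (M0 u hu) _ (M1 v hv),
      fun u hu v hv => A31 _ (M0 u hu) _ (M2 v hv), by simp⟩,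
      ⟨hP.l12, by simp⟩,
      by simp, by simp⟩

/-- symbols: 0=x 1=p 2=p' 3=q 4=s 5=t 6=w 7=z 8=r 9=c 10=f 11=y 12=y' -/
def qi2_PD (a b : ℕ) : Pre :=
  ⟨13,
    [(0, 1), (0, 2), (0, 3), (0, 4), (5, 1), (5, 2), (6, 1), (7, a), (8, 3), (9, 1), (9, 2), (11, 4), (12, 10)],
    [(0, 5), (0, 6), (5, 3), (6, 2), (0, 7), (7, 5), (7, 6), (0, 8), (8, 5), (8, 6), (7, b), (0, 9), (9, 5), (9, 6), (9, 7), (9, 8), (9, 3), (9, 4), (5, 4), (6, 4), (0, 10), (10, 9), (10, 7), (10, 8), (10, 4), (0, 11), (11, 9), (11, 7), (11, 8), (0, 12), (12, 9), (12, 7), (12, 8)],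
    [(1, 2), (1, 3), (1, 4), (2, 3), (2, 4), (3, 4), (12, 5), (12, 6), (11, 5), (11, 6), (11, 10)],
    [(7, 8), (5, 10), (6, 10), (11, 12)],
    [([(7, 8)], 7, 3), ([(5, 10), (10, 6)], 5, 6), ([(11, 12)], 12, 4), ([(5, 10)], 5, 12), ([(11, 12)], 11, 5), ([(11, 12)], 11, 10), ([(11, 12)], 11, 6)],
    [],
    [(7, 8, [1, 2, 4]), (5, 10, [1, 2, 3]), (10, 6, [1, 2, 3, 12, 11]), (11, 12, [1, 2, 3])]⟩

theorem qi2_D (hB : ST_PTB) {V : Type} (G : SimpleGraph V) (K1 K2 K3 : Set V) (a b : ℕ)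
    (x p p' q s t w z r c f y y' : V) (Lz l1 l2 l3 : List V)
    (A12 : Anti G K1 K2) (A13 : Anti G K1 K3) (A23 : Anti G K2 K3)
    (F1 : ∀ u ∈ K1, x ≠ u ∧ ¬ G.Adj x u) (F2 : ∀ u ∈ K2, x ≠ u ∧ ¬ G.Adj x u)
    (F3 : ∀ u ∈ K3, x ≠ u ∧ ¬ G.Adj x u)
    (xp : G.Adj x p) (xp' : G.Adj x p') (xq : G.Adj x q) (xs : G.Adj x s)
    (tp : G.Adj t p) (tp' : G.Adj t p') (tq : ¬ G.Adj t q) (wp : G.Adj w p)
    (wp' : ¬ G.Adj w p') (hC : c ∈ K2) (cp : G.Adj c p) (cp' : G.Adj c p')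
    (cq : ¬ G.Adj c q) (cs : ¬ G.Adj c s) (qs : q ≠ s)
    (za : G.Adj z ([x, p, p', q, s, t, w, z, r, c, f, y, y'].getD a x))
    (zb : z ≠ [x, p, p', q, s, t, w, z, r, c, f, y, y'].getD b x ∧
      ¬ G.Adj z ([x, p, p', q, s, t, w, z, r, c, f, y, y'].getD b x))
    (zr : Nrl G K3 z Lz r q)
    (hP : OffP G K1 (fun u => G.Adj u s) t l1 f l2 w y l3 y') :
    PMod G (qi2_PD a b) (fun i => [x, p, p', q, s, t, w, z, r, c, f, y, y'].getD i x)
      [Lz, l1, l2, l3] := by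
  have hT := hP.aK
  have hW := hP.wK
  have hF := hP.fK
  have hY := hP.yK
  have hY' := hP.y2K
  have hZ := zr.lK
  have hR := zr.rK
  have M0 := zr.LK
  have M1 := hP.l1K
  have M2 := hP.l2K
  have M3 := hP.l3K
  have E1 : ∀ n, G.Adj x n → ∀ u ∈ K1, n ≠ u := fun n hn u hu e => (F1 u hu).2 (e ▸ hn)
  have E1' : ∀ n, G.Adj x n → ∀ u ∈ K1, u ≠ n := fun n hn u hu e => (F1 u hu).2 (e ▸ hn)
  have E2 : ∀ n, G.Adj x n → ∀ u ∈ K2, n ≠ u := fun n hn u hu e => (F2 u hu).2 (e ▸ hn)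
  have E2' : ∀ n, G.Adj x n → ∀ u ∈ K2, u ≠ n := fun n hn u hu e => (F2 u hu).2 (e ▸ hn)
  have E3 : ∀ n, G.Adj x n → ∀ u ∈ K3, n ≠ u := fun n hn u hu e => (F3 u hu).2 (e ▸ hn)
  have E3' : ∀ n, G.Adj x n → ∀ u ∈ K3, u ≠ n := fun n hn u hu e => (F3 u hu).2 (e ▸ hn)
  have A21 : Anti G K2 K1 := fun u hu v hv => ⟨(A12 v hv u hu).1.symm, fun e => (A12 v hv u hu).2 e.symm⟩
  have A31 : Anti G K3 K1 := fun u hu v hv => ⟨(A13 v hv u hu).1.symm, fun e => (A13 v hv u hu).2 e.symm⟩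
  have A32 : Anti G K3 K2 := fun u hu v hv => ⟨(A23 v hv u hu).1.symm, fun e => (A23 v hv u hu).2 e.symm⟩
  have P0 := (hB V G).2.1 _ _ _ zr.pth
  have P1 := (hB V G).2.1 _ _ _ hP.p1
  have P2 := (hB V G).2.1 _ _ _ hP.p2
  have P3 := (hB V G).2.1 _ _ _ hP.p3
  have R1 : w ∉ l1 := by
    rcases eq_or_ne f w with e | e
    · exact e ▸ P1.2.1
    · exact fun h => (hP.l1w e w h).1 rfl
  have L2 : t ∉ l2 := by
    rcases eq_or_ne t f with e | e
    · rw [e]
      exact P2.1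
    · exact fun h => (hP.al2 e t h).1 rfl
  have pp : p ≠ p' := by
    rintro rfl
    exact wp' wp
  have pq : p ≠ q := by
    rintro rfl
    exact tq tp
  have p'q : p' ≠ q := by
    rintro rfl
    exact tq tp'
  have ps : p ≠ s := by
    rintro rfl
    exact cs cp
  have p's : p' ≠ s := by
    rintro rfl
    exact cs cp'
  have Sl := hP.sep t (by simp)
  have Sf := hP.sep f (by simp)
  have Sr := hP.sep w (by simp)
  have S1 : ∀ v ∈ l1, _ := fun v hv => hP.sep v (by simp [hv])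
  have S2 : ∀ v ∈ l2, _ := fun v hv => hP.sep v (by simp [hv])
  have Y1 : ∀ u ∈ l1, ¬ G.Adj y u := by
    intro u hu
    rcases eq_or_ne y y' with e | e
    · rw [e]
      exact hP.y2l u hu
    · exact (S1 u hu).2.2.1 e
  constructor
  case e =>
    simp only [qi2_PD, List.forall_mem_cons, List.getD_cons_zero, List.getD_cons_succ]
    exact ⟨xp, xp', xq, xs, tp, tp', wp, za, zr.rb, cp, cp', hP.yφ, hP.y2f, by simp⟩
  case d =>
    simp only [qi2_PD, List.forall_mem_cons, List.getD_cons_zero, List.getD_cons_succ]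
    exact ⟨F1 _ hT,
      F1 _ hW,
      ⟨E1' _ xq _ hT, tq⟩,
      ⟨E1' _ xp' _ hW, wp'⟩,
      F3 _ hZ,
      A31 _ hZ _ hT,
      A31 _ hZ _ hW,
      F3 _ hR,
      A31 _ hR _ hT,
      A31 _ hR _ hW,
      zb,
      F2 _ hC,
      A21 _ hC _ hT,
      A21 _ hC _ hW,
      A23 _ hC _ hZ,
      A23 _ hC _ hR,
      ⟨E2' _ xq _ hC, cq⟩,
      ⟨E2' _ xs _ hC, cs⟩,
      ⟨E1' _ xs _ hT, hP.nt⟩,
      ⟨E1' _ xs _ hW, hP.nw⟩,
      F1 _ hF,
      A12 _ hF _ hC,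
      A13 _ hF _ hZ,
      A13 _ hF _ hR,
      ⟨E1' _ xs _ hF, hP.nf⟩,
      F1 _ hY,
      A12 _ hY _ hC,
      A13 _ hY _ hZ,
      A13 _ hY _ hR,
      F1 _ hY',
      A12 _ hY' _ hC,
      A13 _ hY' _ hZ,
      A13 _ hY' _ hR, by simp⟩
  case ne =>
    simp only [qi2_PD, List.forall_mem_cons, List.getD_cons_zero, List.getD_cons_succ]
    exact ⟨pp, pq, ps, p'q, p's, qs, Sl.2.1, Sr.2.1, Sl.1, Sr.1, Sf.1, by simp⟩
  case c =>
    simp only [qi2_PD, List.forall_mem_cons, List.getD_cons_zero, List.getD_cons_succ]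
    refine ⟨fun h => ⟨E3' _ xq _ hZ, zr.lr h.1⟩,
      fun h => hP.aw h.1 h.2.1,
      fun h => ⟨E1' _ xs _ hY', hP.y2φ h.1⟩,
      fun h => ⟨Sl.2.1.symm, fun e => hP.y2t h.1 e.symm⟩,
      fun h => ⟨Sl.1, Sl.2.2.1 h.1⟩,
      fun h => ⟨Sf.1, Sf.2.2.1 h.1⟩,
      fun h => ⟨Sr.1, Sr.2.2.1 h.1⟩, by simp⟩
  case cn =>
    simp [qi2_PD]
  case len =>
    rfl
  case tri =>
    simp only [qi2_PD, List.zip_cons_cons, List.forall_mem_cons, List.getD_cons_zero,
      List.getD_cons_succ]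
    exact ⟨qi2_tri zr.pth, qi2_tri hP.p1, qi2_tri hP.p2, qi2_tri hP.p3, by simp⟩
  case pth =>
    simp only [qi2_PD, List.zip_cons_cons, List.forall_mem_cons, List.getD_cons_zero,
      List.getD_cons_succ]
    exact ⟨qi2_pth zr.pth, qi2_pth hP.p1, qi2_pth hP.p2, qi2_pth hP.p3, by simp⟩
  case dis =>
    simp only [qi2_PD, List.zip_cons_cons, List.forall_mem_cons]
    refine ⟨?_, ?_, ?_, ?_, by simp⟩
    · intro i hi
      interval_cases i <;> simp only [List.getD_cons_zero, List.getD_cons_succ]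
      · exact fun h => (F3 _ (M0 _ h)).1 rfl
      · exact fun h => E3 _ xp _ (M0 _ h) rfl
      · exact fun h => E3 _ xp' _ (M0 _ h) rfl
      · exact fun h => E3 _ xq _ (M0 _ h) rfl
      · exact fun h => E3 _ xs _ (M0 _ h) rfl
      · exact fun h => (A13 _ hT _ (M0 _ h)).1 rfl
      · exact fun h => (A13 _ hW _ (M0 _ h)).1 rfl
      · exact P0.1
      · exact P0.2.1
      · exact fun h => (A23 _ hC _ (M0 _ h)).1 rfl
      · exact fun h => (A13 _ hF _ (M0 _ h)).1 rfl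
      · exact fun h => (A13 _ hY _ (M0 _ h)).1 rfl
      · exact fun h => (A13 _ hY' _ (M0 _ h)).1 rfl
    · intro i hi
      interval_cases i <;> simp only [List.getD_cons_zero, List.getD_cons_succ]
      · exact fun h => (F1 _ (M1 _ h)).1 rfl
      · exact fun h => E1 _ xp _ (M1 _ h) rfl
      · exact fun h => E1 _ xp' _ (M1 _ h) rfl
      · exact fun h => E1 _ xq _ (M1 _ h) rfl
      · exact fun h => E1 _ xs _ (M1 _ h) rfl
      · exact P1.1
      · exact R1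
      · exact fun h => (A31 _ hZ _ (M1 _ h)).1 rfl
      · exact fun h => (A31 _ hR _ (M1 _ h)).1 rfl
      · exact fun h => (A21 _ hC _ (M1 _ h)).1 rfl
      · exact P1.2.1
      · exact fun h => (S1 _ h).1 rfl
      · exact fun h => (S1 _ h).2.1 rfl
    · intro i hi
      interval_cases i <;> simp only [List.getD_cons_zero, List.getD_cons_succ]
      · exact fun h => (F1 _ (M2 _ h)).1 rfl
      · exact fun h => E1 _ xp _ (M2 _ h) rfl
      · exact fun h => E1 _ xp' _ (M2 _ h) rfl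
      · exact fun h => E1 _ xq _ (M2 _ h) rfl
      · exact fun h => E1 _ xs _ (M2 _ h) rfl
      · exact L2
      · exact P2.2.1
      · exact fun h => (A31 _ hZ _ (M2 _ h)).1 rfl
      · exact fun h => (A31 _ hR _ (M2 _ h)).1 rfl
      · exact fun h => (A21 _ hC _ (M2 _ h)).1 rfl
      · exact P2.1
      · exact fun h => (S2 _ h).1 rfl
      · exact fun h => (S2 _ h).2.1 rfl
    · intro i hi
      interval_cases i <;> simp only [List.getD_cons_zero, List.getD_cons_succ]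
      · exact fun h => (F1 _ (M3 _ h)).1 rfl
      · exact fun h => E1 _ xp _ (M3 _ h) rfl
      · exact fun h => E1 _ xp' _ (M3 _ h) rfl
      · exact fun h => E1 _ xq _ (M3 _ h) rfl
      · exact fun h => E1 _ xs _ (M3 _ h) rfl
      · exact fun h => (Sl.2.2.2 _ h).1 rfl
      · exact fun h => (Sr.2.2.2 _ h).1 rfl
      · exact fun h => (A31 _ hZ _ (M3 _ h)).1 rfl
      · exact fun h => (A31 _ hR _ (M3 _ h)).1 rfl
      · exact fun h => (A21 _ hC _ (M3 _ h)).1 rfl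
      · exact fun h => (Sf.2.2.2 _ h).1 rfl
      · exact P3.1
      · exact P3.2.1
  case cln =>
    simp only [qi2_PD, List.zip_cons_cons, List.forall_mem_cons]
    refine ⟨?_, ?_, ?_, ?_, by simp⟩
    · intro i hi hU h1 h2 u hu
      interval_cases i <;> simp only [List.getD_cons_zero, List.getD_cons_succ] at h1 h2 ⊢
      · exact (F3 _ (M0 _ hu)).2
      · exact absurd (by simp) hU
      · exact absurd (by simp) hU
      · exact fun e => zr.Lb u hu e.symm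
      · exact absurd (by simp) hU
      · exact (A13 _ hT _ (M0 _ hu)).2
      · exact (A13 _ hW _ (M0 _ hu)).2
      · exact absurd rfl h1
      · exact absurd rfl h2
      · exact (A23 _ hC _ (M0 _ hu)).2
      · exact (A13 _ hF _ (M0 _ hu)).2
      · exact (A13 _ hY _ (M0 _ hu)).2
      · exact (A13 _ hY' _ (M0 _ hu)).2
    · intro i hi hU h1 h2 u hu
      interval_cases i <;> simp only [List.getD_cons_zero, List.getD_cons_succ] at h1 h2 ⊢
      · exact (F1 _ (M1 _ hu)).2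
      · exact absurd (by simp) hU
      · exact absurd (by simp) hU
      · exact absurd (by simp) hU
      · exact fun e => hP.nl1 u hu e.symm
      · exact absurd rfl h1
      · exact fun e => (hP.l1w h2.symm u hu).2 e.symm
      · exact (A31 _ hZ _ (M1 _ hu)).2
      · exact (A31 _ hR _ (M1 _ hu)).2
      · exact (A21 _ hC _ (M1 _ hu)).2
      · exact absurd rfl h2
      · exact Y1 u hu
      · exact hP.y2l u hu
    · intro i hi hU h1 h2 u hu
      interval_cases i <;> simp only [List.getD_cons_zero, List.getD_cons_succ] at h1 h2 ⊢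
      · exact (F1 _ (M2 _ hu)).2
      · exact absurd (by simp) hU
      · exact absurd (by simp) hU
      · exact absurd (by simp) hU
      · exact fun e => hP.nl2 u hu e.symm
      · exact (hP.al2 h1 u hu).2
      · exact absurd rfl h2
      · exact (A31 _ hZ _ (M2 _ hu)).2
      · exact (A31 _ hR _ (M2 _ hu)).2
      · exact (A21 _ hC _ (M2 _ hu)).2
      · exact absurd rfl h1
      · exact absurd (by simp) hU
      · exact absurd (by simp) hU
    · intro i hi hU h1 h2 u hu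
      interval_cases i <;> simp only [List.getD_cons_zero, List.getD_cons_succ] at h1 h2 ⊢
      · exact (F1 _ (M3 _ hu)).2
      · exact absurd (by simp) hU
      · exact absurd (by simp) hU
      · exact absurd (by simp) hU
      · exact fun e => hP.l3φ u hu e.symm
      · exact fun e => (Sl.2.2.2 _ hu).2 e.symm
      · exact fun e => (Sr.2.2.2 _ hu).2 e.symm
      · exact (A31 _ hZ _ (M3 _ hu)).2
      · exact (A31 _ hR _ (M3 _ hu)).2
      · exact (A21 _ hC _ (M3 _ hu)).2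
      · exact fun e => (Sf.2.2.2 _ hu).2 e.symm
      · exact absurd rfl h1
      · exact absurd rfl h2
  case sep =>
    simp only [List.pairwise_cons, List.forall_mem_cons]
    refine ⟨⟨fun u hu v hv => A31 _ (M0 u hu) _ (M1 v hv),
      fun u hu v hv => A31 _ (M0 u hu) _ (M2 v hv),
      fun u hu v hv => A31 _ (M0 u hu) _ (M3 v hv), by simp⟩,
      ⟨hP.l12,
      fun u hu v hv => ⟨fun e => ((S1 u hu).2.2.2 v hv).1 e.symm,
        fun e => ((S1 u hu).2.2.2 v hv).2 e.symm⟩, by simp⟩,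
      ⟨fun u hu v hv => ⟨fun e => ((S2 u hu).2.2.2 v hv).1 e.symm,
        fun e => ((S2 u hu).2.2.2 v hv).2 e.symm⟩, by simp⟩,
      by simp, by simp⟩

theorem qi2_e : preIIAa2 = qi2_PA 1 2 ∧ preIIAb2 = qi2_PA 2 1 ∧ preIIAa3 = qi2_PB 1 2 ∧
    preIIAb3 = qi2_PB 2 1 ∧ preIIAa5 = qi2_PC 1 2 ∧ preIIAb5 = qi2_PC 2 1 ∧
    preIIAa6 = qi2_PD 1 2 ∧ preIIAb6 = qi2_PD 2 1 :=
  ⟨rfl, rfl, rfl, rfl, rfl, rfl, rfl, rfl⟩

theorem st_QI2 (h1 : ST_SEP) (h2 : ST_PTB) : ST_QI2 := by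
  intro V G hN x y1 y2 y3 p p' q t w z Lz r hI c s l1 f l2 hC cp cp' cs xs hP
  have A12 := h1 V G x y1 y2 hI.c12
  have A13 := h1 V G x y1 y3 hI.c13
  have A23 := h1 V G x y2 y3 hI.c23
  have FF : ∀ y, ∀ u ∈ KC G x y, x ≠ u ∧ ¬ G.Adj x u := by
    intro y u hu
    obtain ⟨_, hz, _⟩ := hu
    exact ⟨fun e => hz.1 e.symm, hz.2⟩
  have F1 := FF y1
  have F2 := FF y2
  have F3 := FF y3
  have cq : ¬ G.Adj c q := fun e => hI.q2 ⟨hI.xq, c, hC, e.symm⟩
  have zE : ∀ n, G.Adj x n → z ≠ n := fun n hn e => (F3 z hI.zr.lK).2 (e ▸ hn)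
  by_cases sq : q = s
  · subst sq
    rcases hP with hP | ⟨y, l3, y', hP⟩
    · rcases hI.zp with ⟨za, zb⟩ | ⟨za, zb⟩
      · exact hN preIIAa2 (by simp [preBs]) _ _ (qi2_e.1 ▸ qi2_A h2 G _ _ _ 1 2 x p p' q t w z r c f
          Lz l1 l2 A12 A13 A23 F1 F2 F3 hI.xp hI.xp' hI.xq hI.tp hI.tp' hI.tq hI.wp hI.wp' hC cp cp'
          cq za ⟨zE _ hI.xp', zb⟩ hI.zr hP)
      · exact hN preIIAb2 (by simp [preBs]) _ _ (qi2_e.2.1 ▸ qi2_A h2 G _ _ _ 2 1 x p p' q t w z r c f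
          Lz l1 l2 A12 A13 A23 F1 F2 F3 hI.xp hI.xp' hI.xq hI.tp hI.tp' hI.tq hI.wp hI.wp' hC cp cp'
          cq za ⟨zE _ hI.xp, zb⟩ hI.zr hP)
    · rcases hI.zp with ⟨za, zb⟩ | ⟨za, zb⟩
      · exact hN preIIAa3 (by simp [preBs]) _ _ (qi2_e.2.2.1 ▸ qi2_B h2 G _ _ _ 1 2 x p p' q t w z r
          c f y y' Lz l1 l2 l3 A12 A13 A23 F1 F2 F3 hI.xp hI.xp' hI.xq hI.tp hI.tp' hI.tq hI.wp
          hI.wp' hC cp cp' cq za ⟨zE _ hI.xp', zb⟩ hI.zr hP)
      · exact hN preIIAb3 (by simp [preBs]) _ _ (qi2_e.2.2.2.1 ▸ qi2_B h2 G _ _ _ 2 1 x p p' q t w z r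
          c f y y' Lz l1 l2 l3 A12 A13 A23 F1 F2 F3 hI.xp hI.xp' hI.xq hI.tp hI.tp' hI.tq hI.wp
          hI.wp' hC cp cp' cq za ⟨zE _ hI.xp, zb⟩ hI.zr hP)
  · rcases hP with hP | ⟨y, l3, y', hP⟩
    · rcases hI.zp with ⟨za, zb⟩ | ⟨za, zb⟩
      · exact hN preIIAa5 (by simp [preBs]) _ _ (qi2_e.2.2.2.2.1 ▸ qi2_C h2 G _ _ _ 1 2 x p p' q s t w
          z r c f Lz l1 l2 A12 A13 A23 F1 F2 F3 hI.xp hI.xp' hI.xq xs hI.tp hI.tp' hI.tq hI.wp hI.wp'
          hC cp cp' cq cs sq za ⟨zE _ hI.xp', zb⟩ hI.zr hP)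
      · exact hN preIIAb5 (by simp [preBs]) _ _ (qi2_e.2.2.2.2.2.1 ▸ qi2_C h2 G _ _ _ 2 1 x p p' q s t
          w z r c f Lz l1 l2 A12 A13 A23 F1 F2 F3 hI.xp hI.xp' hI.xq xs hI.tp hI.tp' hI.tq hI.wp
          hI.wp' hC cp cp' cq cs sq za ⟨zE _ hI.xp, zb⟩ hI.zr hP)
    · rcases hI.zp with ⟨za, zb⟩ | ⟨za, zb⟩
      · exact hN preIIAa6 (by simp [preBs]) _ _ (qi2_e.2.2.2.2.2.2.1 ▸ qi2_D h2 G _ _ _ 1 2 x p p' q s
          t w z r c f y y' Lz l1 l2 l3 A12 A13 A23 F1 F2 F3 hI.xp hI.xp' hI.xq xs hI.tp hI.tp' hI.tq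
          hI.wp hI.wp' hC cp cp' cq cs sq za ⟨zE _ hI.xp', zb⟩ hI.zr hP)
      · exact hN preIIAb6 (by simp [preBs]) _ _ (qi2_e.2.2.2.2.2.2.2 ▸ qi2_D h2 G _ _ _ 2 1 x p p' q s
          t w z r c f y y' Lz l1 l2 l3 A12 A13 A23 F1 F2 F3 hI.xp hI.xp' hI.xq xs hI.tp hI.tp' hI.tq
          hI.wp hI.wp' hC cp cp' cq cs sq za ⟨zE _ hI.xp, zb⟩ hI.zr hP)

end Pool.Agent.Helper64.FL
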