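import Pool.Agent.Helper64.FL.StG
import Pool.Agent.Helper63.FL.IPL

/-! Full list for MP_866009_co: a minimal connected set containing three vertices. -/

set_option autoImplicit false

namespace Pool.Agent.Helper64.FL

open Pool.Agent.Helper64.CT Pool.Agent.Helper64.DT
open Pool.Agent.Helper63.FL (ipt_one ipt_two ipt_split ipt_rev ipt_nodup)

variable {V : Type}

theorem ste_pth (G : SimpleGraph V) (o a : V) (A : List V) (h : IPt G (o :: A))
    (hl : (o :: A).getLast? = some a) :
    ∃ l, Pth G o l a ∧ ∀ u, (u ∈ l ∨ (u = a ∧ a ≠ o)) ↔ u ∈ A := by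
  rcases List.eq_nil_or_concat A with e | ⟨A', a', e⟩
  · subst e
    have e1 : o = a := by simpa using hl
    refine ⟨[], Or.inl ⟨e1, rfl⟩, fun u => ?_⟩
    simp [e1]
  · rw [List.concat_eq_append] at e
    subst e
    have e1 : a' = a := by
      rw [← List.cons_append, List.getLast?_append] at hl
      simpa using hl
    subst e1
    have hn : o ≠ a' := by
      have h1 := ipt_nodup G _ h
      intro e
      rw [List.nodup_cons] at h1
      exact h1.1 (by simp [e])
    refine ⟨A', Or.inr ⟨hn, h⟩, fun u => ?_⟩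
    simp [hn.symm]

theorem ste_clw (G : SimpleGraph V) (S : Set V) (o a b c : V) (A B C : List V)
    (hA : IPt G (o :: A)) (hB : IPt G (o :: B)) (hC : IPt G (o :: C))
    (la : (o :: A).getLast? = some a) (lb : (o :: B).getLast? = some b)
    (lc : (o :: C).getLast? = some c) (oS : o ∈ S) (sA : ∀ u ∈ A, u ∈ S) (sB : ∀ u ∈ B, u ∈ S)
    (sC : ∀ u ∈ C, u ∈ S) (hab : ∀ u ∈ A, ∀ v ∈ B, u ≠ v ∧ ¬ G.Adj u v)
    (hac : ∀ u ∈ A, ∀ v ∈ C, u ≠ v ∧ ¬ G.Adj u v) (hbc : ∀ u ∈ B, ∀ v ∈ C, u ≠ v ∧ ¬ G.Adj u v) :
    ∃ o la lb lc, Clw G S o la a lb b lc c := by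
  obtain ⟨l1, p1, q1⟩ := ste_pth G o a A hA la
  obtain ⟨l2, p2, q2⟩ := ste_pth G o b B hB lb
  obtain ⟨l3, p3, q3⟩ := ste_pth G o c C hC lc
  refine ⟨o, l1, l2, l3, ⟨oS, ?_, p1, p2, p3, ?_, ?_, ?_⟩⟩
  · rintro u (h | h | h | h | h | h)
    · exact sA u ((q1 u).1 (Or.inl h))
    · exact sB u ((q2 u).1 (Or.inl h))
    · exact sC u ((q3 u).1 (Or.inl h))
    · rcases eq_or_ne a o with e | e
      · rw [h, e]; exact oS
      · exact sA u ((q1 u).1 (Or.inr ⟨h, e⟩))
    · rcases eq_or_ne b o with e | e
      · rw [h, e]; exact oS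
      · exact sB u ((q2 u).1 (Or.inr ⟨h, e⟩))
    · rcases eq_or_ne c o with e | e
      · rw [h, e]; exact oS
      · exact sC u ((q3 u).1 (Or.inr ⟨h, e⟩))
  · exact fun u hu v hv => hab u ((q1 u).1 hu) v ((q2 v).1 hv)
  · exact fun u hu v hv => hac u ((q1 u).1 hu) v ((q3 v).1 hv)
  · exact fun u hu v hv => hbc u ((q2 u).1 hu) v ((q3 v).1 hv)

theorem ste_mem {x a : V} {l A : List V} (q : ∀ u, (u ∈ l ∨ (u = a ∧ a ≠ x)) ↔ u ∈ A) (u : V)
    (h : u = x ∨ u ∈ l ∨ u = a) : u ∈ x :: A := by
  rcases h with h | h | h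
  · rw [h]; exact List.mem_cons_self
  · exact List.mem_cons_of_mem _ ((q u).1 (Or.inl h))
  · rcases eq_or_ne a x with e | e
    · rw [h, e]; exact List.mem_cons_self
    · exact List.mem_cons_of_mem _ ((q u).1 (Or.inr ⟨h, e⟩))

theorem ste_net (G : SimpleGraph V) (S : Set V) (x y z a b c : V) (A B C : List V)
    (hA : IPt G (x :: A)) (hB : IPt G (y :: B)) (hC : IPt G (z :: C))
    (la : (x :: A).getLast? = some a) (lb : (y :: B).getLast? = some b)
    (lc : (z :: C).getLast? = some c) (sA : ∀ u ∈ x :: A, u ∈ S) (sB : ∀ u ∈ y :: B, u ∈ S)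
    (sC : ∀ u ∈ z :: C, u ∈ S) (xy : G.Adj x y) (xz : G.Adj x z) (yz : G.Adj y z)
    (hab : ∀ u ∈ x :: A, ∀ v ∈ y :: B, u ≠ v ∧ (G.Adj u v → u = x ∧ v = y))
    (hac : ∀ u ∈ x :: A, ∀ v ∈ z :: C, u ≠ v ∧ (G.Adj u v → u = x ∧ v = z))
    (hbc : ∀ u ∈ y :: B, ∀ v ∈ z :: C, u ≠ v ∧ (G.Adj u v → u = y ∧ v = z)) :
    ∃ x y z la lb lc, Net G S x y z la a lb b lc c := by
  obtain ⟨l1, p1, q1⟩ := ste_pth G x a A hA la
  obtain ⟨l2, p2, q2⟩ := ste_pth G y b B hB lb
  obtain ⟨l3, p3, q3⟩ := ste_pth G z c C hC lc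
  refine ⟨x, y, z, l1, l2, l3, ⟨?_, xy, xz, yz, p1, p2, p3, ?_, ?_, ?_⟩⟩
  · rintro u (h | h | h | h | h | h | h | h | h)
    · exact sA u (ste_mem q1 u (Or.inl h))
    · exact sB u (ste_mem q2 u (Or.inl h))
    · exact sC u (ste_mem q3 u (Or.inl h))
    · exact sA u (ste_mem q1 u (Or.inr (Or.inl h)))
    · exact sB u (ste_mem q2 u (Or.inr (Or.inl h)))
    · exact sC u (ste_mem q3 u (Or.inr (Or.inl h)))
    · exact sA u (ste_mem q1 u (Or.inr (Or.inr h)))
    · exact sB u (ste_mem q2 u (Or.inr (Or.inr h)))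
    · exact sC u (ste_mem q3 u (Or.inr (Or.inr h)))
  · exact fun u hu v hv => hab u (ste_mem q1 u hu) v (ste_mem q2 v hv)
  · exact fun u hu v hv => hac u (ste_mem q1 u hu) v (ste_mem q3 v hv)
  · exact fun u hu v hv => hbc u (ste_mem q2 u hu) v (ste_mem q3 v hv)

theorem ste_first (φ : V → Prop) : ∀ l : List V, (∃ u ∈ l, φ u) →
    ∃ l1 p l2, l = l1 ++ p :: l2 ∧ φ p ∧ ∀ u ∈ l1, ¬ φ u := by
  intro l
  induction l with
  | nil => rintro ⟨u, hu, _⟩; simp at hu
  | cons a l ih =>
    rintro ⟨u, hu, hφ⟩
    by_cases ha : φ a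
    · exact ⟨[], a, l, rfl, ha, by simp⟩
    · have hu' : u ∈ l := by
        rcases List.mem_cons.1 hu with e | h
        · exact absurd (e ▸ hφ) ha
        · exact h
      obtain ⟨l1, p, l2, e, hp, h1⟩ := ih ⟨u, hu', hφ⟩
      refine ⟨a :: l1, p, l2, by simp [e], hp, ?_⟩
      intro v hv
      rcases List.mem_cons.1 hv with e | h
      · rw [e]; exact ha
      · exact h1 v h

theorem ste_last (φ : V → Prop) (l : List V) (h : ∃ u ∈ l, φ u) :
    ∃ l1 p l2, l = l1 ++ p :: l2 ∧ φ p ∧ ∀ u ∈ l2, ¬ φ u := by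
  obtain ⟨m1, q, m2, e, hq, h1⟩ := ste_first φ l.reverse (by
    obtain ⟨u, hu, hφ⟩ := h
    exact ⟨u, by simpa using hu, hφ⟩)
  refine ⟨m2.reverse, q, m1.reverse, ?_, hq, ?_⟩
  · have h2 := congrArg List.reverse e
    simpa using h2
  · intro u hu
    exact h1 u (by simpa using hu)

theorem ste_nb (G : SimpleGraph V) : ∀ l : List V, IPt G l → 2 ≤ l.length →
    ∀ u ∈ l, ∃ v ∈ l, G.Adj u v := by
  intro l
  induction l with
  | nil => intro _ _ u hu; simp at hu
  | cons a l ih =>
    intro h hl u hu
    cases l with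
    | nil => simp at hl
    | cons b l =>
      rw [ipt_two] at h
      rcases List.mem_cons.1 hu with e | hu
      · exact ⟨b, by simp, e ▸ h.2.1⟩
      · cases l with
        | nil =>
          have e : u = b := by simpa using hu
          exact ⟨a, by simp, e ▸ h.2.1.symm⟩
        | cons d l =>
          obtain ⟨v, hv, hv2⟩ := ih h.2.2.2 (by simp) u hu
          exact ⟨v, List.mem_cons_of_mem _ hv, hv2⟩

theorem ste_cn (hC : ST_CNB) (G : SimpleGraph V) (S : Set V) : ∀ l : List V, IPt G l →
    (∀ u ∈ l, u ∈ S) → ∀ u ∈ l, ∀ v ∈ l, Cn G S u v := by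
  obtain ⟨c1, c2, c3, c4, _, _, _⟩ := hC V G
  have key : ∀ (l : List V) (a : V), IPt G (a :: l) → (∀ u ∈ a :: l, u ∈ S) →
      ∀ u ∈ a :: l, Cn G S a u := by
    intro l
    induction l with
    | nil =>
      intro a _ hs u hu
      have e : u = a := by simpa using hu
      rw [e]
      exact ⟨hs a (by simp), Relation.ReflTransGen.refl⟩
    | cons b l ih =>
      intro a h hs u hu
      rw [ipt_two] at h
      rcases List.mem_cons.1 hu with e | hu
      · rw [e]
        exact ⟨hs a (by simp), Relation.ReflTransGen.refl⟩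
      · have h1 := ih b h.2.2.2 (fun v hv => hs v (List.mem_cons_of_mem _ hv)) u hu
        exact c2 S _ _ _ (c4 S a b (hs a (by simp)) (hs b (by simp)) h.2.1) h1
  intro l h hs u hu v hv
  cases l with
  | nil => simp at hu
  | cons a l =>
    exact c2 S _ _ _ (c1 S _ _ (key l a h hs u hu)).2 (key l a h hs v hv)

theorem ste_hd {w1 w2 : List V} {p a : V} (h : (w1 ++ p :: w2).head? = some a) :
    (p :: w1.reverse).getLast? = some a := by
  cases w1 with
  | nil => simpa using h
  | cons b w1 =>
    have e : b = a := by simpa using h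
    rw [← e, List.reverse_cons, ← List.cons_append, List.getLast?_append]
    simp

theorem ste_lt {w1 w2 : List V} {p b : V} (h : (w1 ++ p :: w2).getLast? = some b) :
    (p :: w2).getLast? = some b := by
  rw [List.getLast?_append] at h
  obtain ⟨d, hd⟩ : ∃ d, (p :: w2).getLast? = some d := by
    cases e : (p :: w2).getLast? with
    | none => simp at e
    | some d => exact ⟨d, rfl⟩
  rw [hd] at h ⊢
  simpa using h

theorem ste_min (S : Set V) [Finite V] (φ : Set V → Prop) (h : φ S) :
    ∃ T, T ⊆ S ∧ φ T ∧ ∀ d ∈ T, ¬ φ (T \ {d}) := by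
  classical
  have h1 : ∃ n, ∃ T, T ⊆ S ∧ φ T ∧ T.ncard = n := ⟨_, S, subset_rfl, h, rfl⟩
  obtain ⟨T, hT, hφ, hn⟩ := Nat.find_spec h1
  refine ⟨T, hT, hφ, ?_⟩
  intro d hd hd2
  have h2 : (T \ {d}).ncard < Nat.find h1 := by
    rw [← hn]
    exact Set.ncard_sdiff_singleton_lt_of_mem hd (Set.toFinite T)
  exact Nat.find_min h1 h2 ⟨T \ {d}, fun u hu => hT hu.1, hd2, rfl⟩

theorem st_STE (h1 : ST_CNB) (_h2 : ST_PTB) (h3 : ST_SPN) : ST_STE := by
  intro V _ G S a b c hab hac nab nac nbc
  obtain ⟨c1, c2, c3, c4, _, _, _⟩ := h1 V G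
  obtain ⟨T, hTS, ⟨tab, tac⟩, hmin⟩ := ste_min S (fun T => Cn G T a b ∧ Cn G T a c) ⟨hab, hac⟩
  -- the path from a to b
  obtain ⟨a', M, b', ha', aT, hb', bT, hM, MT, _⟩ := h3 V G T {a} {b} ⟨a, rfl, b, rfl, tab⟩
  have ea : a' = a := ha'
  have eb : b' = b := hb'
  subst ea; subst eb
  have hw : IPt G (a' :: (M ++ [b'])) := by
    rcases hM with h | h
    · exact absurd h.1 nab
    · exact h.2
  obtain ⟨w, ew⟩ : ∃ w, w = a' :: (M ++ [b']) := ⟨_, rfl⟩
  rw [← ew] at hw
  have wh : w.head? = some a' := by rw [ew]; rfl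
  have wl : w.getLast? = some b' := by
    rw [ew, ← List.cons_append, List.getLast?_append]
    simp
  have wT : ∀ u ∈ w, u ∈ T := by
    intro u hu
    rw [ew] at hu
    rcases List.mem_cons.1 hu with e | hu
    · rw [e]; exact aT
    · rcases List.mem_append.1 hu with h | h
      · exact (MT u h).1
      · have e : u = b' := by simpa using h
        rw [e]; exact bT
  have w2 : 2 ≤ w.length := by rw [ew]; simp
  have aw : a' ∈ w := by rw [ew]; simp
  have bw : b' ∈ w := by rw [ew]; simp
  have ipr : ∀ (w1 : List V) (p : V), IPt G (w1 ++ [p]) → IPt G (p :: w1.reverse) := by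
    intro w1 p h
    have h4 := ipt_rev G _ h
    simpa using h4
  by_cases hc : c ∈ w
  · obtain ⟨w1, w2, e⟩ := List.append_of_mem hc
    rw [e] at wh wl hw
    rw [ipt_split] at hw
    left
    refine ste_clw G S c a' b' c w1.reverse w2 [] (ipr _ _ hw.1) hw.2.1 (ipt_one G c) (ste_hd wh)
      (ste_lt wl) (by simp) (hTS (wT c hc)) ?_ ?_ (by simp) ?_ (by simp) (by simp)
    · intro u hu
      exact hTS (wT u (by rw [e]; simp at hu; simp [hu]))
    · intro u hu
      exact hTS (wT u (by rw [e]; simp [hu]))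
    · intro u hu v hv
      exact hw.2.2 u (by simpa using hu) v hv
  · -- the path from c to the neighbourhood of w
    obtain ⟨c', L, r, hc', cT, hr, rT, hL, LT, hcr⟩ := h3 V G T {c} {v | ∃ p ∈ w, G.Adj v p}
      ⟨c, rfl, a', ste_nb G w hw w2 a' aw, (c1 T _ _ tac).2⟩
    have ec : c' = c := hc'
    subst ec
    obtain ⟨R, hR, lR, mR⟩ : ∃ R, IPt G (r :: R) ∧ (r :: R).getLast? = some c' ∧
        ∀ u ∈ R, u ∈ T ∧ ¬ ∃ p ∈ w, G.Adj u p := by
      rcases hL with ⟨e, eL⟩ | ⟨hne, hL⟩
      · refine ⟨[], ipt_one G r, by simp [e], by simp⟩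
      · refine ⟨L.reverse ++ [c'], ?_, ?_, ?_⟩
        · have h4 := ipt_rev G _ hL
          simpa using h4
        · rw [← List.cons_append, List.getLast?_append]
          simp
        · intro u hu
          rcases List.mem_append.1 hu with h | h
          · have h5 := LT u (by simpa using h)
            exact ⟨h5.1, h5.2.2⟩
          · have e : u = c' := by simpa using h
            rw [e]
            exact ⟨cT, (hcr hne).1⟩
    have rw0 : r ∉ w := by
      intro hrw
      rcases hL with ⟨e, eL⟩ | ⟨hne, hL⟩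
      · exact hc (e ▸ hrw)
      · rcases List.eq_nil_or_concat L with e | ⟨L', d, e⟩
        · subst e
          rw [List.nil_append, ipt_two] at hL
          exact (hcr hne).1 ⟨r, hrw, hL.2.1⟩
        · rw [List.concat_eq_append] at e
          subst e
          have h6 : IPt G ((c' :: L') ++ d :: [r]) := by simpa using hL
          rw [ipt_split, ipt_two] at h6
          exact (LT d (by simp)).2.2 ⟨r, hrw, h6.2.1.2.1⟩
    have Rw : ∀ u ∈ R, u ∉ w := by
      intro u hu huw
      exact (mR u hu).2 (ste_nb G w hw w2 u huw)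
    have RA : ∀ u ∈ R, ∀ v ∈ w, ¬ G.Adj u v := fun u hu v hv h => (mR u hu).2 ⟨v, hv, h⟩
    obtain ⟨w1, p, w2', e, hp, hw1⟩ := ste_first (fun v => G.Adj r v) w hr
    by_cases h7 : ∃ u ∈ w2', G.Adj r u
    · obtain ⟨w3, q, w4, e2, hq, hw4⟩ := ste_last (fun v => G.Adj r v) w2' h7
      cases w3 with
      | nil =>
        right
        rw [List.nil_append] at e2
        subst e2
        rw [e] at wh wl hw
        have hh := hw
        rw [ipt_split] at hw
        have hpq := hw.2.1
        rw [ipt_two] at hpq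
        have pw : p ∈ w := by rw [e]; simp
        have qw : q ∈ w := by rw [e]; simp
        refine ste_net G S p q r a' b' c' w1.reverse w4 R (ipr _ _ hw.1) hpq.2.2.2 hR (ste_hd wh)
          (by
            have h8 : ((w1 ++ [p]) ++ q :: w4).getLast? = some b' := by simpa using wl
            exact ste_lt h8) lR ?_ ?_ ?_ hpq.2.1 hp.symm hq.symm ?_ ?_ ?_
        · intro u hu
          refine hTS (wT u ?_)
          rw [e]
          rcases List.mem_cons.1 hu with h | h
          · simp [h]
          · have h' : u ∈ w1 := by simpa using h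
            simp [h']
        · intro u hu
          refine hTS (wT u ?_)
          rw [e]
          exact List.mem_append_right _ (List.mem_cons_of_mem _ hu)
        · intro u hu
          rcases List.mem_cons.1 hu with h | h
          · rw [h]; exact hTS rT
          · exact hTS (mR u h).1
        · intro u hu v hv
          rcases List.mem_cons.1 hu with h | h
          · rw [h]
            refine ⟨hpq.1 v hv, fun hh => ?_⟩
            rcases List.mem_cons.1 hv with h' | h'
            · exact ⟨rfl, h'⟩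
            · exact absurd hh (hpq.2.2.1 v h')
          · have h' : u ∈ w1 := by simpa using h
            have h9 := hw.2.2 u h' v hv
            exact ⟨h9.1, fun hh => absurd hh h9.2⟩
        · intro u hu v hv
          have huw : u ∈ w := by
            rw [e]
            rcases List.mem_cons.1 hu with h | h
            · simp [h]
            · have h' : u ∈ w1 := by simpa using h
              simp [h']
          rcases List.mem_cons.1 hv with h' | h'
          · rw [h']
            refine ⟨fun e9 => rw0 (e9 ▸ huw), fun hh => ?_⟩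
            rcases List.mem_cons.1 hu with h | h
            · exact ⟨h, rfl⟩
            · have h'' : u ∈ w1 := by simpa using h
              exact absurd hh.symm (hw1 u h'')
          · exact ⟨fun e9 => Rw v h' (e9 ▸ huw), fun hh => absurd hh.symm (RA v h' u huw)⟩
        · intro u hu v hv
          have huw : u ∈ w := by
            rw [e]
            exact List.mem_append_right _ (List.mem_cons_of_mem _ hu)
          rcases List.mem_cons.1 hv with h' | h'
          · rw [h']
            refine ⟨fun e9 => rw0 (e9 ▸ huw), fun hh => ?_⟩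
            rcases List.mem_cons.1 hu with h | h
            · exact ⟨h, rfl⟩
            · exact absurd hh.symm (hw4 u h)
          · exact ⟨fun e9 => Rw v h' (e9 ▸ huw), fun hh => absurd hh.symm (RA v h' u huw)⟩
      | cons d w3 =>
        exfalso
        have e3 : w = (w1 ++ [p]) ++ d :: (w3 ++ q :: w4) := by
          rw [e, e2]
          simp
        have dw : d ∈ w := by rw [e3]; simp
        have hnd := ipt_nodup G _ hw
        rw [e3] at hnd
        have hnd2 := List.nodup_middle.1 hnd
        rw [List.nodup_cons] at hnd2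
        have hd := hnd2.1
        have s1 : ∀ u ∈ w1 ++ [p], u ∈ T \ {d} := by
          intro u hu
          refine ⟨wT u (by rw [e3]; exact List.mem_append_left _ hu), fun e9 => hd ?_⟩
          have e9' : u = d := e9
          rw [← e9']
          exact List.mem_append_left _ hu
        have s2 : ∀ u ∈ q :: w4, u ∈ T \ {d} := by
          intro u hu
          refine ⟨wT u (by
            rw [e3]
            exact List.mem_append_right _ (List.mem_cons_of_mem _ (List.mem_append_right _ hu))),
            fun e9 => hd ?_⟩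
          have e9' : u = d := e9
          rw [← e9']
          exact List.mem_append_right _ (List.mem_append_right _ hu)
        have s3 : ∀ u ∈ r :: R, u ∈ T \ {d} := by
          intro u hu
          rcases List.mem_cons.1 hu with h | h
          · rw [h]
            exact ⟨rT, fun e9 => rw0 ((show r = d from e9) ▸ dw)⟩
          · exact ⟨(mR u h).1, fun e9 => Rw u h ((show u = d from e9) ▸ dw)⟩
        have i1 : IPt G (w1 ++ [p]) := by
          have h8 := hw
          rw [e, ipt_split] at h8
          exact h8.1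
        have i2 : IPt G (q :: w4) := by
          have h8 : IPt G ((w1 ++ [p] ++ d :: w3) ++ q :: w4) := by
            have h8 := hw
            rw [e3] at h8
            simpa using h8
          rw [ipt_split] at h8
          exact h8.2.1
        have am : a' ∈ w1 ++ [p] := by
          have h8 := ste_hd (w1 := w1) (w2 := w2') (p := p) (by rw [← e]; exact wh)
          have h9 := List.mem_of_getLast? h8
          rcases List.mem_cons.1 h9 with h | h
          · simp [h]
          · have h' : a' ∈ w1 := by simpa using h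
            simp [h']
        have bm : b' ∈ q :: w4 := by
          have h8 : ((w1 ++ [p] ++ d :: w3) ++ q :: w4).getLast? = some b' := by
            have h8 := wl
            rw [e3] at h8
            simpa using h8
          exact List.mem_of_getLast? (ste_lt h8)
        have cm : c' ∈ r :: R := List.mem_of_getLast? lR
        have k1 := ste_cn h1 G (T \ {d}) _ i1 s1 a' am p (by simp)
        have k2 := ste_cn h1 G (T \ {d}) _ i2 s2 q (by simp) b' bm
        have k3 := ste_cn h1 G (T \ {d}) _ hR s3 r (by simp) c' cm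
        have k4 := c4 (T \ {d}) p r (s1 p (by simp)) (s3 r (by simp)) hp.symm
        have k5 := c4 (T \ {d}) r q (s3 r (by simp)) (s2 q (by simp)) hq
        have k6 := c2 _ _ _ _ k1 k4
        exact hmin d (wT d dw) ⟨c2 _ _ _ _ k6 (c2 _ _ _ _ k5 k2), c2 _ _ _ _ k6 k3⟩
    · left
      rw [e] at wh wl
      have hh := hw
      rw [e, ipt_split] at hh
      have pw : p ∈ w := by rw [e]; simp
      refine ste_clw G S p a' b' c' w1.reverse w2' (r :: R) (ipr _ _ hh.1) hh.2.1 ?_ (ste_hd wh)
        (ste_lt wl) ?_ (hTS (wT p pw)) ?_ ?_ ?_ ?_ ?_ ?_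
      · rw [ipt_two]
        refine ⟨?_, hp.symm, ?_, hR⟩
        · intro u hu
          rcases List.mem_cons.1 hu with h | h
          · rw [h]; exact fun e9 => rw0 (e9 ▸ pw)
          · exact fun e9 => Rw u h (e9 ▸ pw)
        · intro u hu hh
          exact RA u hu p pw hh.symm
      · rw [List.getLast?_cons_cons]
        exact lR
      · intro u hu
        have h' : u ∈ w1 := by simpa using hu
        exact hTS (wT u (by rw [e]; simp [h']))
      · intro u hu
        exact hTS (wT u (by rw [e]; simp [hu]))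
      · intro u hu
        rcases List.mem_cons.1 hu with h | h
        · rw [h]; exact hTS rT
        · exact hTS (mR u h).1
      · intro u hu v hv
        exact hh.2.2 u (by simpa using hu) v hv
      · intro u hu v hv
        have h' : u ∈ w1 := by simpa using hu
        have huw : u ∈ w := by rw [e]; simp [h']
        rcases List.mem_cons.1 hv with h | h
        · rw [h]
          exact ⟨fun e9 => rw0 (e9 ▸ huw), fun hh => hw1 u h' hh.symm⟩
        · exact ⟨fun e9 => Rw v h (e9 ▸ huw), fun hh => RA v h u huw hh.symm⟩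
      · intro u hu v hv
        have huw : u ∈ w := by rw [e]; simp [hu]
        rcases List.mem_cons.1 hv with h | h
        · rw [h]
          exact ⟨fun e9 => rw0 (e9 ▸ huw), fun hh => h7 ⟨u, hu, hh.symm⟩⟩
        · exact ⟨fun e9 => Rw v h (e9 ▸ huw), fun hh => RA v h u huw hh.symm⟩

end Pool.Agent.Helper64.FL
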